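import Pool.Agent.Y245.SC.Stm3

/-!
Project UC (helper245): isolated singularities of arbitrary branches of the Riemann map in
`1 < |w| ≤ ∞`.

Everything is written in the coordinate `u = 1 / conj w` in the unit disc. For a holomorphic `f`
near `w` put `Rf f u = conj (f (1 / conj u))`. The Volterra equation reads
`F(u0) - b = H(u0) + ∫_u^{u0} kerU(v, u0, F(v) - b) dv` with `H` holomorphic in the unit disc; it is
continued analytically along chains of domains in the unit disc.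
-/

set_option autoImplicit false

open Complex MeasureTheory Metric Set Filter Topology ComplexConjugate
open Pool.Agent.Y245.SC

namespace Pool.Agent.Y245.UC

/-- the reflected function -/
noncomputable def Rf (f : ℂ → ℂ) (u : ℂ) : ℂ := conj (f (1 / conj u))

/-- the Volterra kernel in the coordinate `u` -/
noncomputable def kerU (a : ℝ) (φ : ℂ → ℂ) (u u0 ξ : ℂ) : ℂ :=
  ξ ^ 2 * kap a (ξ * (φ u - φ u0)) * deriv φ u

/-- the Volterra equation for the germ of `F` at `u`, with the inhomogeneous term `H` -/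
def VGH (a : ℝ) (φ : ℂ → ℂ) (b u : ℂ) (F H : ℂ → ℂ) : Prop :=
  DifferentiableOn ℂ H (ball 0 1) ∧
  ∀ᶠ u0 in 𝓝 u, F u0 - b = H u0 + seg (fun v => kerU a φ v u0 (F v - b)) u u0

def VG (a : ℝ) (φ : ℂ → ℂ) (b u : ℂ) (F : ℂ → ℂ) : Prop := ∃ H : ℂ → ℂ, VGH a φ b u F H

/-- the Volterra equation in the annulus, from the one in the logarithmic coordinate -/
def U_START : Prop := S_KAP → S_SEG → S_PAR → ∀ (φ G : ℂ → ℂ) (a ℓ : ℝ) (b u : ℂ), 0 < a → 0 < ℓ →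
  DifferentiableOn ℂ φ (ball 0 (Real.exp ℓ)) → DifferentiableOn ℂ G (ball 0 1) →
  VoltB a ℓ φ b G → Real.exp (-ℓ) < ‖u‖ → ‖u‖ < 1 → VG a φ b u (Rf φ)

/-- change of the base point in a convex set -/
def U_STEP : Prop := S_KAP → S_SEG → S_PAR → ∀ (φ F H : ℂ → ℂ) (a : ℝ) (b u u' : ℂ) (V : Set ℂ),
  0 < a → DifferentiableOn ℂ φ (ball 0 1) → IsOpen V → Convex ℝ V → V ⊆ ball 0 1 →
  DifferentiableOn ℂ F V → u ∈ V → u' ∈ V → VGH a φ b u F H →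
  VGH a φ b u' F (fun u0 => H u0 + seg (fun v => kerU a φ v u0 (F v - b)) u u')

/-- the Volterra equation holds along connected open sets and depends only on the germ -/
def U_CONN : Prop := U_STEP → S_KAP → S_SEG → S_PAR → ∀ (φ : ℂ → ℂ) (a : ℝ) (b : ℂ), 0 < a →
  DifferentiableOn ℂ φ (ball 0 1) →
  (∀ (V : Set ℂ) (F : ℂ → ℂ) (u u' : ℂ), IsOpen V → IsPreconnected V → V ⊆ ball 0 1 →
    DifferentiableOn ℂ F V → u ∈ V → u' ∈ V → VG a φ b u F → VG a φ b u' F) ∧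
  ∀ (F F' : ℂ → ℂ) (u : ℂ), F =ᶠ[𝓝 u] F' → VG a φ b u F → VG a φ b u F'

/-- the loop integral of the kernel around an isolated singularity vanishes -/
def U_RES : Prop := U_STEP → S_KAP → S_SEG → S_PAR → ∀ (φ X : ℂ → ℂ) (a ρ : ℝ) (b P u : ℂ),
  0 < a → 0 < ρ → DifferentiableOn ℂ φ (ball 0 1) → InjOn φ (ball 0 1) → ball P ρ ⊆ ball 0 1 →
  DifferentiableOn ℂ X (ball P ρ \ {P}) → u ∈ ball P ρ \ {P} → VG a φ b u X →
  ∀ z0 : ℂ, ∮ v in C(P, ρ / 2),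
    (X v - b) ^ 2 * kap a ((X v - b) * (φ v - z0)) * deriv φ v = 0

/-- an algebraic relation near a point of the annulus holds on the unit circle -/
def U_REL : Prop := ∀ (φ : ℂ → ℂ) (r : ℝ) (u g0 xs ct : ℂ), 1 < r →
  DifferentiableOn ℂ φ (ball 0 r) → r⁻¹ < ‖u‖ → ‖u‖ < 1 →
  (∀ᶠ v in 𝓝 u, (Rf φ v - g0) * (φ v - xs) = ct) →
  ∀ w ∈ sphere (0 : ℂ) 1, (conj (φ w) - g0) * (φ w - xs) = ct

/-- reflected sets and functions -/
def U_REFL : Prop :=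
  (∀ (B : Set ℂ) (f : ℂ → ℂ), IsOpen B → (∀ w ∈ B, 1 < ‖w‖) → DifferentiableOn ℂ f B →
    IsOpen {v : ℂ | v ≠ 0 ∧ 1 / conj v ∈ B} ∧ {v : ℂ | v ≠ 0 ∧ 1 / conj v ∈ B} ⊆ ball 0 1 ∧
    (IsPreconnected B → IsPreconnected {v : ℂ | v ≠ 0 ∧ 1 / conj v ∈ B}) ∧
    DifferentiableOn ℂ (Rf f) {v : ℂ | v ≠ 0 ∧ 1 / conj v ∈ B}) ∧
  (∀ (f g : ℂ → ℂ) (z : ℂ), z ≠ 0 → f =ᶠ[𝓝 z] g → Rf f =ᶠ[𝓝 (1 / conj z)] Rf g) ∧
  (∀ (f : ℂ → ℂ) (z : ℂ), z ≠ 0 → Rf (Rf f) z = f z) ∧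
  (∀ w1 : ℂ, 1 < ‖w1‖ → ∀ ε : ℝ, 0 < ε → ∃ ρ : ℝ, 0 < ρ ∧
    ball (1 / conj w1) ρ ⊆ ball 0 1 ∧ ∀ v ∈ ball (1 / conj w1) ρ, v ≠ 0 ∧ 1 / conj v ∈ ball w1 ε) ∧
  ∀ w1 : ℂ, 1 < ‖w1‖ → ∀ ρ : ℝ, 0 < ρ → ∃ δ : ℝ, 0 < δ ∧
    ∀ w ∈ ball w1 δ, w ≠ 0 ∧ 1 / conj w ∈ ball (1 / conj w1) ρ

/-- The germs obtained from `φ` by analytic continuation along chains of discs in `|w| > 1`:
`Branch φ r z f` means that `f` near `z` is such a continuation of `φ`, which is given in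
`|w| < r`. -/
inductive Branch (φ : ℂ → ℂ) (r : ℝ) : ℂ → (ℂ → ℂ) → Prop
  | base (z : ℂ) (h1 : 1 < ‖z‖) (h2 : ‖z‖ < r) : Branch φ r z φ
  | step (z z' c : ℂ) (ρ : ℝ) (f g : ℂ → ℂ) (h : Branch φ r z f)
      (hB : ∀ w ∈ ball c ρ, 1 < ‖w‖) (hg : DifferentiableOn ℂ g (ball c ρ))
      (hz : z ∈ ball c ρ) (hz' : z' ∈ ball c ρ) (hfg : f =ᶠ[𝓝 z] g) : Branch φ r z' g

end Pool.Agent.Y245.UC
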