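import Pool.Agent.Y662.UC.Boot
import Pool.Agent.Y167.SF.Boot3

/-!
Project UC: a branch of order at most `1 / dist` with a small constant at a boundary point of a disc
is bounded there. Combination of `Pool.Agent.Y662.UC.Boot` and `Pool.Agent.Y167.SF.Boot3`.
-/

set_option autoImplicit false

open Complex MeasureTheory Metric Set Filter Topology ComplexConjugate
open Pool.Agent.Y245.SC
open Pool.Agent.Y251.SF (S_KAP2 S_GRON)
open Pool.Agent.Y662.UC (pt pt_norm pt_sub kerU_diff)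
open Pool.Agent.Y167.SF (room exp_num seg_le)

namespace Pool.Agent.Y245.UC

theorem ucrit (hST : U_STEP) (hK2 : S_KAP2) (hK : S_KAP) (hS : S_SEG) (hP : S_PAR)
    (hGr : S_GRON) (φ F : ℂ → ℂ) (a ρ η δ : ℝ) (c p P : ℂ) (ha : 0 < a) (hρ : 0 < ρ)
    (hη : 0 ≤ η) (hδ : 0 < δ) (hφ : DifferentiableOn ℂ φ (ball 0 1))
    (hcb : closedBall c ρ ⊆ ball 0 1) (hF : DifferentiableOn ℂ F (ball c ρ))
    (hsm : a * ‖deriv φ P‖ * η < 3 / 4)
    (hgr : ∀ v ∈ ball c ρ, ‖v - P‖ < δ → (ρ - ‖v - c‖) * ‖F v‖ ≤ η)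
    (hp : p ∈ ball c ρ) (hVG : VG a φ 0 p F) (hPs : P ∈ sphere c ρ) :
    ∃ (δ' M : ℝ), 0 < δ' ∧ ∀ v ∈ ball c ρ, ‖v - P‖ < δ' → ‖F v‖ ≤ M := by
  obtain ⟨hkd, -, -⟩ := hK a ha.le
  have hbs : ball c ρ ⊆ ball (0 : ℂ) 1 := ball_subset_closedBall.trans hcb
  have hφ' : DifferentiableOn ℂ (deriv φ) (ball 0 1) := hφ.deriv isOpen_ball
  obtain ⟨H, hH, hVH⟩ := hVG
  -- the equation in the whole disc
  have hEq : ∀ u0 ∈ ball c ρ, F u0 = H u0 + seg (fun v => kerU a φ v u0 (F v)) p u0 := by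
    intro u0 hu0
    have h1 := (hST hK hS hP φ F H a 0 p u0 (ball c ρ) ha hφ isOpen_ball (convex_ball c ρ) hbs hF
      hp hu0 ⟨hH, hVH⟩).2.self_of_nhds
    simp only [sub_zero] at h1
    have h2 : seg (fun v => kerU a φ v u0 (F v)) u0 u0 = 0 := by
      unfold seg
      simp
    rw [h2, add_zero] at h1
    exact h1
  obtain ⟨B0, hB0⟩ : ∃ B0, ∀ w ∈ closedBall c ρ, ‖φ w‖ ≤ B0 :=
    (isCompact_closedBall c ρ).exists_bound_of_continuousOn (hφ.continuousOn.mono hcb)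
  obtain ⟨B1, hB1⟩ : ∃ B1, ∀ w ∈ closedBall c ρ, ‖deriv φ w‖ ≤ B1 :=
    (isCompact_closedBall c ρ).exists_bound_of_continuousOn (hφ'.continuousOn.mono hcb)
  obtain ⟨MH, hMH⟩ : ∃ MH, ∀ w ∈ closedBall c ρ, ‖H w‖ ≤ MH :=
    (isCompact_closedBall c ρ).exists_bound_of_continuousOn (hH.continuousOn.mono hcb)
  have hcc : c ∈ closedBall c ρ := mem_closedBall_self hρ.le
  have hB00 : 0 ≤ B0 := (norm_nonneg _).trans (hB0 c hcc)
  have hB10 : 0 ≤ B1 := (norm_nonneg _).trans (hB1 c hcc)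
  have hMH0 : 0 ≤ MH := (norm_nonneg _).trans (hMH c hcc)
  have hPc' : P ∈ closedBall c ρ := sphere_subset_closedBall hPs
  -- constants
  obtain ⟨e0, he0, hroom⟩ := room hsm
  obtain ⟨L', hL'⟩ : ∃ L', L' = ‖deriv φ P‖ + e0 := ⟨_, rfl⟩
  obtain ⟨η', hη'⟩ : ∃ η', η' = η + e0 := ⟨_, rfl⟩
  rw [← hL', ← hη'] at hroom
  have hL0 : 0 < L' := by rw [hL']; positivity
  have hη0 : 0 ≤ η' := by rw [hη']; linarith
  obtain ⟨q, hq⟩ : ∃ q, q = a * L' * η' := ⟨_, rfl⟩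
  have hq0 : 0 ≤ q := by rw [hq]; positivity
  have hq1 : q < 3 / 4 := by rw [hq]; exact hroom
  -- continuity of the derivative
  obtain ⟨r1, hr1, hr1s, hQ⟩ : ∃ r1 : ℝ, 0 < r1 ∧ ball P r1 ⊆ ball 0 1 ∧
      ∀ v ∈ ball P r1, ‖deriv φ v‖ ≤ L' := by
    have hPm : P ∈ ball (0 : ℂ) 1 := hcb hPc'
    have h1 : ContinuousAt (deriv φ) P :=
      (hφ'.continuousOn).continuousAt (isOpen_ball.mem_nhds hPm)
    have h2 : ∀ᶠ v in 𝓝 P, ‖deriv φ v‖ < L' := by
      apply h1.norm.eventually_lt continuousAt_const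
      rw [hL']
      linarith
    obtain ⟨r, hr, h3⟩ := Metric.eventually_nhds_iff.mp
      (h2.and (isOpen_ball.mem_nhds hPm))
    exact ⟨r, hr, fun v hv => (h3 hv).2, fun v hv => (h3 hv).1.le⟩
  obtain ⟨d, hd⟩ : ∃ d, d = min (min r1 δ) ρ / 2 := ⟨_, rfl⟩
  have hd0 : 0 < d := by rw [hd]; positivity
  have hdr : 2 * d ≤ r1 := by
    have h1 : min (min r1 δ) ρ ≤ r1 := (min_le_left _ _).trans (min_le_left _ _)
    rw [hd]; linarith
  have hdδ : 2 * d ≤ δ := by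
    have h1 : min (min r1 δ) ρ ≤ δ := (min_le_left _ _).trans (min_le_right _ _)
    rw [hd]; linarith
  have hdρ : d < ρ := by
    have h1 : min (min r1 δ) ρ ≤ ρ := min_le_right _ _
    rw [hd]; linarith
  obtain ⟨ρ', hρ'⟩ : ∃ ρ', ρ' = max ‖p - c‖ (ρ - d) := ⟨_, rfl⟩
  have hρ'ρ : ρ' < ρ := by
    rw [hρ']
    refine max_lt ?_ (by linarith)
    rwa [mem_ball, dist_eq_norm] at hp
  have hρ'sub : closedBall c ρ' ⊆ ball c ρ := closedBall_subset_ball hρ'ρ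
  obtain ⟨MF, hMF⟩ : ∃ MF, ∀ w ∈ closedBall c ρ', ‖F w‖ ≤ MF :=
    (isCompact_closedBall c ρ').exists_bound_of_continuousOn (hF.continuousOn.mono hρ'sub)
  have hρ'0 : 0 ≤ ρ' := by
    rw [hρ']
    exact le_max_of_le_right (by linarith)
  have hMF0 : 0 ≤ MF := (norm_nonneg _).trans (hMF c (mem_closedBall_self hρ'0))
  have hkap : ∀ (x : ℂ) (X : ℝ), ‖x‖ ≤ X → ‖kap a x‖ ≤ a / 2 * Real.exp (a * X) := by
    intro x X hx
    refine (hK2 a x ha.le).trans (mul_le_mul_of_nonneg_left ?_ (by positivity))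
    exact Real.exp_le_exp.2 (mul_le_mul_of_nonneg_left hx ha.le)
  obtain ⟨K1, hK1⟩ : ∃ K1, K1 = MF ^ 2 * (a / 2 * Real.exp (a * (MF * (2 * B0)))) * B1 :=
    ⟨_, rfl⟩
  have hK10 : 0 ≤ K1 := by rw [hK1]; positivity
  obtain ⟨M, hM⟩ : ∃ M, M = MH + K1 * (2 * ρ) := ⟨_, rfl⟩
  have hM0 : 0 ≤ M := by rw [hM]; positivity
  obtain ⟨C, hC⟩ : ∃ C, C = a / 2 * Real.exp q * L' := ⟨_, rfl⟩
  have hC0 : 0 ≤ C := by rw [hC]; positivity
  have hCη : C * η' < 1 := by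
    have h1 : C * η' = q / 2 * Real.exp q := by
      rw [hC, hq]; ring
    rw [h1]
    exact exp_num hq0 hq1
  obtain ⟨M0, hGM⟩ := hGr d M C η' hd0 hM0 hC0 hη0 hCη
  refine ⟨d, M0, hd0, fun v hv hvP => ?_⟩
  obtain ⟨x0, hx0⟩ : ∃ x0 : ℝ, x0 = ρ - ‖v - c‖ := ⟨_, rfl⟩
  have hvc : ‖v - c‖ < ρ := by rwa [mem_ball, dist_eq_norm] at hv
  have hx00 : 0 < x0 := by linarith
  have hPc : ‖P - c‖ = ρ := by rwa [mem_sphere, dist_eq_norm] at hPs
  have hx0P : x0 ≤ ‖v - P‖ := by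
    have : ‖P - c‖ ≤ ‖v - P‖ + ‖v - c‖ := by
      have e1 : P - c = (v - c) - (v - P) := by ring
      rw [e1]
      linarith [norm_sub_le (v - c) (v - P)]
    linarith
  have hx0d : x0 < d := by linarith
  have hvc0 : 0 < ‖v - c‖ := by linarith
  obtain ⟨e, he⟩ : ∃ e : ℂ, e = (v - c) / (‖v - c‖ : ℂ) := ⟨_, rfl⟩
  have hne : ((‖v - c‖ : ℝ) : ℂ) ≠ 0 := by exact_mod_cast hvc0.ne'
  have he1 : ‖e‖ = 1 := by
    rw [he, norm_div, Complex.norm_real, Real.norm_eq_abs, abs_of_pos hvc0, div_self hvc0.ne']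
  have hvpt : pt c ρ e x0 = v := by
    rw [Pool.Agent.Y662.UC.pt, hx0, sub_sub_cancel, he, mul_div_cancel₀ _ hne]
    ring
  have hPx : ∀ x ∈ Ioc (0 : ℝ) d, ‖pt c ρ e x - P‖ < 2 * d := by
    intro x hx
    have e1 : pt c ρ e x - P = (pt c ρ e x - pt c ρ e x0) + (v - P) := by
      rw [hvpt]
      ring
    rw [e1]
    refine (norm_add_le _ _).trans_lt ?_
    rw [pt_sub he1]
    have h1 : |x - x0| ≤ d := by
      rw [abs_le]
      constructor
      · linarith [hx.1]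
      · linarith [hx.2]
    linarith
  have hmem : ∀ x : ℝ, 0 < x → x ≤ ρ → pt c ρ e x ∈ ball c ρ := by
    intro x hx hxρ
    rw [mem_ball, dist_eq_norm, pt_norm he1 hxρ]
    linarith
  obtain ⟨f, hf⟩ : ∃ f : ℝ → ℝ, f = fun s => ‖F (pt c ρ e s)‖ := ⟨_, rfl⟩
  have hfc : ContinuousOn f (Ioc 0 d) := by
    intro x hx
    rw [hf]
    have hxm := hmem x hx.1 (by linarith [hx.2])
    have h1 : ContinuousAt F (pt c ρ e x) :=
      ((hF _ hxm).differentiableAt (isOpen_ball.mem_nhds hxm)).continuousAt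
    have h2 : ContinuousAt (fun x : ℝ => pt c ρ e x) x := by
      unfold Pool.Agent.Y662.UC.pt
      fun_prop
    exact (ContinuousAt.comp (f := fun x : ℝ => pt c ρ e x) h1 h2).norm.continuousWithinAt
  have hfη : ∀ s ∈ Ioc (0 : ℝ) d, s * f s ≤ η' := by
    intro s hs
    have h1 := hgr (pt c ρ e s) (hmem s hs.1 (by linarith [hs.2]))
      ((hPx s hs).trans_le hdδ)
    rw [pt_norm he1 (by linarith [hs.2]), sub_sub_cancel] at h1
    rw [hf, hη']
    show s * ‖F (pt c ρ e s)‖ ≤ η + e0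
    linarith
  have hfin := hGM f hfc (fun s _ => by rw [hf]; exact norm_nonneg _) hfη ?_ x0
    ⟨hx00, hx0d.le⟩
  · rw [hf] at hfin
    simp only [hvpt] at hfin
    exact hfin
  -- the integral inequality
  intro t ht
  have hutm : pt c ρ e t ∈ ball c ρ := hmem t ht.1 (by linarith [ht.2])
  have hqm : pt c ρ e d ∈ ball c ρ := hmem d hd0 hdρ.le
  obtain ⟨g, hgd⟩ : ∃ g : ℂ → ℂ, g = fun v => kerU a φ v (pt c ρ e t) (F v) := ⟨_, rfl⟩
  have hgdiff : DifferentiableOn ℂ g (ball c ρ) := by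
    rw [hgd]
    exact kerU_diff hkd hφ hbs hF _
  have hadd := (hS (ball c ρ) g isOpen_ball (convex_ball c ρ) hgdiff).1 p hp _ hqm _ hutm
  have hVt := hEq (pt c ρ e t) hutm
  rw [← hgd, ← hadd] at hVt
  have b1 : ‖H (pt c ρ e t)‖ ≤ MH := hMH _ (ball_subset_closedBall hutm)
  have b2 : ‖seg g p (pt c ρ e d)‖ ≤ K1 * (2 * ρ) := by
    have hpc : p ∈ closedBall c ρ' := by
      rw [mem_closedBall, dist_eq_norm, hρ']
      exact le_max_left _ _
    have hqc : pt c ρ e d ∈ closedBall c ρ' := by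
      rw [mem_closedBall, dist_eq_norm, pt_norm he1 hdρ.le, hρ']
      exact le_max_right _ _
    have h3 : ‖pt c ρ e d - p‖ ≤ 2 * ρ := by
      have e1 : ‖pt c ρ e d - p‖ ≤ ‖pt c ρ e d - c‖ + ‖p - c‖ := by
        have : pt c ρ e d - p = (pt c ρ e d - c) - (p - c) := by ring
        rw [this]
        exact norm_sub_le _ _
      rw [mem_ball, dist_eq_norm] at hp hqm
      linarith
    refine (seg_le (K := K1) ?_).trans (mul_le_mul_of_nonneg_left h3 hK10)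
    intro τ hτ
    have hseg : p + (τ : ℂ) * (pt c ρ e d - p) ∈ closedBall c ρ' := by
      have := (convex_closedBall c ρ').add_smul_sub_mem hpc hqc hτ
      rwa [Complex.real_smul] at this
    obtain ⟨ω, hω⟩ : ∃ ω : ℂ, ω = p + (τ : ℂ) * (pt c ρ e d - p) := ⟨_, rfl⟩
    rw [← hω] at hseg ⊢
    have k1 := hMF _ hseg
    have hsc := ball_subset_closedBall (hρ'sub hseg)
    have k2 : ‖F ω * (φ ω - φ (pt c ρ e t))‖ ≤ MF * (2 * B0) := by
      rw [norm_mul]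
      refine mul_le_mul k1 ?_ (norm_nonneg _) hMF0
      have k3 := hB0 _ hsc
      have k4 := hB0 _ (ball_subset_closedBall hutm)
      exact (norm_sub_le _ _).trans (by linarith)
    have k5 := hkap _ _ k2
    have k6 := hB1 ω hsc
    rw [hgd]
    show ‖F ω ^ 2 * kap a (F ω * (φ ω - φ (pt c ρ e t))) * deriv φ ω‖ ≤ K1
    rw [norm_mul, norm_mul, norm_pow, hK1]
    have k7 : ‖F ω‖ ^ 2 ≤ MF ^ 2 := pow_le_pow_left₀ (norm_nonneg _) k1 2
    exact mul_le_mul (mul_le_mul k7 k5 (norm_nonneg _) (by positivity)) k6 (norm_nonneg _)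
      (by positivity)
  have b3 : ‖seg g (pt c ρ e d) (pt c ρ e t)‖ ≤ C * ∫ s in t..d, f s ^ 2 := by
    have hpsub : ∀ τ : ℝ, pt c ρ e d + (τ : ℂ) * (pt c ρ e t - pt c ρ e d) =
        pt c ρ e ((t - d) * τ + d) := by
      intro τ
      rw [Pool.Agent.Y662.UC.pt, Pool.Agent.Y662.UC.pt, Pool.Agent.Y662.UC.pt]
      push_cast
      ring
    have hrange : ∀ τ ∈ Icc (0 : ℝ) 1, t ≤ (t - d) * τ + d ∧ (t - d) * τ + d ≤ d := by
      intro τ hτ
      constructor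
      · nlinarith [hτ.1, hτ.2, ht.2]
      · nlinarith [hτ.1, hτ.2, ht.2]
    have hbound : ∀ τ ∈ Icc (0 : ℝ) 1, ‖g (pt c ρ e ((t - d) * τ + d))‖ ≤
        C * f ((t - d) * τ + d) ^ 2 := by
      intro τ hτ
      obtain ⟨s1, s2⟩ := hrange τ hτ
      obtain ⟨s, hs⟩ : ∃ s, s = (t - d) * τ + d := ⟨_, rfl⟩
      rw [← hs] at s1 s2 ⊢
      have hs0 : 0 < s := ht.1.trans_le s1
      have hm1 : pt c ρ e s ∈ ball P r1 := by
        rw [mem_ball, dist_eq_norm]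
        exact (hPx s ⟨hs0, s2⟩).trans_le hdr
      have hm2 : pt c ρ e t ∈ ball P r1 := by
        rw [mem_ball, dist_eq_norm]
        exact (hPx t ht).trans_le hdr
      have k1 : ‖φ (pt c ρ e s) - φ (pt c ρ e t)‖ ≤ L' * s := by
        have h1 := (convex_ball P r1).norm_image_sub_le_of_norm_deriv_le (𝕜 := ℂ) (f := φ)
          (C := L') (fun x hx => (hφ x (hr1s hx)).differentiableAt
            (isOpen_ball.mem_nhds (hr1s hx))) hQ hm2 hm1
        refine h1.trans (mul_le_mul_of_nonneg_left ?_ hL0.le)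
        rw [pt_sub he1, abs_of_nonneg (by linarith)]
        linarith [ht.1]
      have k8 : f s = ‖F (pt c ρ e s)‖ := by rw [hf]
      have k2 : ‖F (pt c ρ e s) * (φ (pt c ρ e s) - φ (pt c ρ e t))‖ ≤ L' * η' := by
        rw [norm_mul]
        have k3 := hfη s ⟨hs0, s2⟩
        rw [k8] at k3
        calc ‖F (pt c ρ e s)‖ * ‖φ (pt c ρ e s) - φ (pt c ρ e t)‖
            ≤ ‖F (pt c ρ e s)‖ * (L' * s) := mul_le_mul_of_nonneg_left k1 (norm_nonneg _)
          _ = L' * (s * ‖F (pt c ρ e s)‖) := by ring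
          _ ≤ L' * η' := mul_le_mul_of_nonneg_left k3 hL0.le
      have k5 := hkap _ _ k2
      have k6 : a * (L' * η') = q := by rw [hq]; ring
      rw [k6] at k5
      have k7 : ‖deriv φ (pt c ρ e s)‖ ≤ L' := hQ _ hm1
      rw [hgd, k8]
      show ‖F (pt c ρ e s) ^ 2 * kap a (F (pt c ρ e s) * (φ (pt c ρ e s) - φ (pt c ρ e t))) *
        deriv φ (pt c ρ e s)‖ ≤ _
      rw [norm_mul, norm_mul, norm_pow, hC]
      calc ‖F (pt c ρ e s)‖ ^ 2 * ‖kap a (F (pt c ρ e s) * (φ (pt c ρ e s) - φ (pt c ρ e t)))‖ *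
            ‖deriv φ (pt c ρ e s)‖
          ≤ ‖F (pt c ρ e s)‖ ^ 2 * (a / 2 * Real.exp q) * L' :=
            mul_le_mul (mul_le_mul_of_nonneg_left k5 (by positivity)) k7 (norm_nonneg _)
              (by positivity)
        _ = a / 2 * Real.exp q * L' * ‖F (pt c ρ e s)‖ ^ 2 := by ring
    have hint : (∫ s in t..d, f s ^ 2) = ∫ τ in (0 : ℝ)..1, f ((t - d) * τ + d) ^ 2 * (d - t) := by
      have h1 := intervalIntegral.smul_integral_comp_mul_add (a := 0) (b := 1)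
        (fun s => f s ^ 2) (t - d) d
      simp only [mul_zero, zero_add, mul_one, sub_add_cancel, smul_eq_mul] at h1
      rw [intervalIntegral.integral_symm, ← h1, intervalIntegral.integral_mul_const]
      ring
    have hcomp : ContinuousOn (fun τ : ℝ => f ((t - d) * τ + d) ^ 2 * (d - t)) (uIcc 0 1) := by
      rw [uIcc_of_le zero_le_one]
      have h1 : ContinuousOn (fun τ : ℝ => f ((t - d) * τ + d)) (Icc 0 1) := by
        refine hfc.comp (by fun_prop) ?_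
        intro τ hτ
        exact ⟨ht.1.trans_le (hrange τ hτ).1, (hrange τ hτ).2⟩
      exact (h1.pow 2).mul continuousOn_const
    unfold seg
    rw [hint, ← intervalIntegral.integral_const_mul]
    refine intervalIntegral.norm_integral_le_of_norm_le zero_le_one
      (Eventually.of_forall fun τ hτ => ?_) (hcomp.const_smul C).intervalIntegrable
    rw [hpsub, norm_mul, pt_sub he1, abs_sub_comm,
      abs_of_nonneg (by linarith [ht.2] : (0 : ℝ) ≤ d - t)]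
    have h2 := hbound τ ⟨hτ.1.le, hτ.2⟩
    calc ‖g (pt c ρ e ((t - d) * τ + d))‖ * (d - t) ≤ C * f ((t - d) * τ + d) ^ 2 * (d - t) :=
          mul_le_mul_of_nonneg_right h2 (by linarith [ht.2])
      _ = C * (f ((t - d) * τ + d) ^ 2 * (d - t)) := by ring
  have hft : f t = ‖F (pt c ρ e t)‖ := by rw [hf]
  rw [hft, hVt]
  calc ‖H (pt c ρ e t) + (seg g p (pt c ρ e d) + seg g (pt c ρ e d) (pt c ρ e t))‖
      ≤ ‖H (pt c ρ e t)‖ + (‖seg g p (pt c ρ e d)‖ + ‖seg g (pt c ρ e d) (pt c ρ e t)‖) :=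
        (norm_add_le _ _).trans (add_le_add_right (norm_add_le _ _) _)
    _ ≤ MH + (K1 * (2 * ρ) + C * ∫ s in t..d, f s ^ 2) :=
        add_le_add b1 (add_le_add b2 b3)
    _ = _ := by rw [hM]; ring

end Pool.Agent.Y245.UC
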