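import Pool.Agent.Y245.UC.Stm
import Pool.Agent.Y245.SC.Main4

/-!
Project UC: assembly.
-/

set_option autoImplicit false

open Complex MeasureTheory Metric Set Filter Topology ComplexConjugate
open Pool.Agent.TH298.Sch (Sol)
open Pool.Agent.Y245.SG (Bn)
open Pool.Agent.Y245.SC

namespace Pool.Agent.Y245.UC

theorem punct (x : ℂ) (ρ : ℝ) : IsPreconnected (ball x ρ \ {x}) := by
  have h1 : ball x ρ \ {x} =
      (fun p : ℝ × ℝ => x + p.1 * Complex.exp (p.2 * Complex.I)) '' (Ioo 0 ρ ×ˢ univ) := by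
    ext y
    constructor
    · rintro ⟨hy1, hy2⟩
      have hne : y - x ≠ 0 := sub_ne_zero.mpr hy2
      refine ⟨(‖y - x‖, Complex.arg (y - x)), ⟨⟨norm_pos_iff.mpr hne, ?_⟩, trivial⟩, ?_⟩
      · rw [mem_ball, dist_eq_norm] at hy1; exact hy1
      · simp only [Complex.norm_mul_exp_arg_mul_I]
        ring
    · rintro ⟨⟨s, θ⟩, ⟨⟨hs0, hs1⟩, -⟩, rfl⟩
      simp only at hs0 hs1
      have hn : ‖(s : ℂ) * Complex.exp (θ * Complex.I)‖ = s := by
        rw [norm_mul, Complex.norm_exp_ofReal_mul_I, mul_one, Complex.norm_real, Real.norm_eq_abs,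
          abs_of_pos hs0]
      refine ⟨?_, ?_⟩
      · rw [mem_ball, dist_eq_norm, add_sub_cancel_left, hn]; exact hs1
      · intro h
        have h' : x + (s : ℂ) * Complex.exp (θ * Complex.I) = x := h
        have h2 : (s : ℂ) * Complex.exp (θ * Complex.I) = 0 := by simpa using h'
        rw [h2, norm_zero] at hn
        exact hs0.ne hn
  rw [h1]
  apply IsPreconnected.image
  · exact (isPreconnected_Ioo).prod isPreconnected_univ
  · apply Continuous.continuousOn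
    fun_prop

theorem t_JOC : S_MER := Pool.Agent.Y287.ES.mer

/-- isolated singularities in the coordinate `u` -/
theorem mainU (hRES : U_RES) (hSTEP : U_STEP) (φ : ℂ → ℂ) (r a : ℝ) (hr : 1 < r)
    (hφ : DifferentiableOn ℂ φ (ball 0 r)) (hinj : InjOn φ (ball 0 r)) (ha : 0 < a)
    (P : ℂ) (ρ : ℝ) (hρ : 0 < ρ) (hP : ball P ρ ⊆ ball 0 1) (X : ℂ → ℂ)
    (hX : DifferentiableOn ℂ X (ball P ρ \ {P})) (u : ℂ) (hu : u ∈ ball P ρ \ {P})
    (hVG : ∀ b, VG a φ b u X)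
    (hRel : ∀ g0 xs ct : ℂ, (∀ᶠ v in 𝓝 u, (X v - g0) * (φ v - xs) = ct) →
      ∀ w ∈ sphere (0 : ℂ) 1, (conj (φ w) - g0) * (φ w - xs) = ct) :
    (∃ (p : ℂ) (r0 : ℝ), 0 < r0 ∧ φ '' ball 0 1 = ball p r0) ∨
    ∃ E : ℂ → ℂ, DifferentiableOn ℂ E (ball P ρ) ∧ ∀ v ∈ ball P ρ, v ≠ P → E v = X v := by
  have hφ1 : DifferentiableOn ℂ φ (ball 0 1) := hφ.mono (ball_subset_ball hr.le)
  have hinj1 : InjOn φ (ball 0 1) := hinj.mono (ball_subset_ball hr.le)
  have hPb : P ∈ ball P ρ := mem_ball_self hρ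
  have hxd : DifferentiableOn ℂ φ (ball P ρ) := hφ1.mono hP
  have hxP : deriv φ P ≠ 0 := t_NZ φ r hφ hinj P (ball_subset_ball hr.le (hP hPb))
  have hxne : ∀ v ∈ ball P ρ, v ≠ P → φ v ≠ φ P := fun v hv hne h =>
    hne (hinj1 (hP hv) (hP hPb) h)
  have hsub : sphere P (ρ / 2) ⊆ ball P ρ \ {P} := by
    intro ω hω
    rw [mem_sphere_iff_norm] at hω
    refine ⟨by rw [mem_ball_iff_norm, hω]; linarith, ?_⟩
    intro h
    rw [mem_singleton_iff] at h
    rw [h, sub_self, norm_zero] at hω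
    linarith
  have hexpo : ∀ α β : ℂ, α * β = -(a : ℂ) →
      ∮ v in C(P, ρ / 2), exp (α * φ v + β * X v) * deriv φ v = 0 := by
    refine Pool.Agent.Y953.SC.gen t_KAP a P (ρ / 2) X φ (deriv φ) ha (by linarith)
      (hX.continuousOn.mono hsub) (hxd.continuousOn.mono (hsub.trans diff_subset))
      ((hxd.deriv isOpen_ball).continuousOn.mono (hsub.trans diff_subset)) ?_
    intro b z0
    exact hRES hSTEP t_KAP t_SEG t_PAR φ X a ρ b P u ha hρ hφ1 hinj1 hP hX hu (hVG b) z0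
  rcases Pool.Agent.Y953.ES.tri P ρ X hρ hX with hess | ⟨m, E, hE, hE0, hEX⟩
  · exact absurd hexpo (t_EF a ρ P φ X ha hρ hxd hxP hess)
  rcases Nat.eq_zero_or_pos m with h0 | h0
  · right
    refine ⟨E, hE, fun v hv hne => ?_⟩
    rw [hEX v hv hne, h0, pow_zero, div_one]
  have hE0' : E P ≠ 0 := by
    rcases hE0 with h | h
    · omega
    · exact h
  rcases Nat.lt_or_ge 1 m with hm2 | hm2
  · exact absurd hexpo (Pool.Agent.Y219.SC.lapb Pool.Agent.Y388.SC.lapa a ρ P m φ X E ha hρ hm2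
      hxd hxP hE hE0' hEX)
  have hm1 : m = 1 := by omega
  subst hm1
  left
  obtain ⟨ct, g, hct, hg, hgE⟩ := Pool.Agent.Y987.SC.split ρ P φ E hρ hxd hxP hxne hE hE0'
  have hgX : ∀ v ∈ ball P ρ, v ≠ P → X v = ct / (φ v - φ P) + g v := fun v hv hne => by
    rw [hEX v hv hne, hgE v hv hne]
  obtain ⟨hB1, hg2⟩ := Pool.Agent.Y618.SC.simb Pool.Agent.Y427.SC.sima a ρ P φ X g ct ha hρ hxd
    hxP hxne hg hct hgX hexpo
  have hq : ((a : ℝ) : ℂ) * ct ≠ 0 := mul_ne_zero (by exact_mod_cast ha.ne') hct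
  have hgc : ∀ v ∈ ball P ρ, g v = g P := by
    rcases hg2 with h | ⟨n, hn, h⟩
    · exact h
    · exact absurd ⟨hB1, h⟩ (Pool.Agent.Y245.SG.bourget (n + 1) _ (by omega) hq)
  refine Pool.Agent.Y427.SC.geo φ r ct (g P) (φ P) hr hφ hinj hct (hRel (g P) (φ P) ct ?_)
  have hopen : IsOpen (ball P ρ \ {P}) := isOpen_ball.sdiff isClosed_singleton
  filter_upwards [hopen.mem_nhds hu] with v hv
  have hne : v ≠ P := hv.2
  rw [hgX v hv.1 hne, hgc v hv.1, add_sub_cancel_right]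
  exact div_mul_cancel₀ _ (sub_ne_zero.2 (hxne v hv.1 hne))

/-- the invariant of the analytic continuation -/
theorem branch_inv (hSTART : U_START) (hSTEP : U_STEP) (hCONN : U_CONN) (hREL : U_REL)
    (hREFL : U_REFL) (φ : ℂ → ℂ) (r lam c : ℝ) (u : ℂ → ℝ) (G : ℂ → ℂ) (hr : 1 < r)
    (hφ : DifferentiableOn ℂ φ (ball 0 r)) (hinj : InjOn φ (ball 0 r)) (hlam : 0 < lam)
    (hc : c ≠ 0) (hS : Sol (φ '' ball 0 1) lam c u G) (z : ℂ) (f : ℂ → ℂ) (h : Branch φ r z f) :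
    1 < ‖z‖ ∧ (∀ b, VG (lam / 4) φ b (1 / conj z) (Rf f)) ∧
    ∀ g0 xs ct : ℂ, (∀ᶠ v in 𝓝 (1 / conj z), (Rf f v - g0) * (φ v - xs) = ct) →
      ∀ w ∈ sphere (0 : ℂ) 1, (conj (φ w) - g0) * (φ w - xs) = ct := by
  have ha : 0 < lam / 4 := by positivity
  have hφ1 : DifferentiableOn ℂ φ (ball 0 1) := hφ.mono (ball_subset_ball hr.le)
  have hr0 : 0 < r := by linarith
  induction h with
  | base z h1 h2 =>
    have hnorm : ‖1 / conj z‖ = ‖z‖⁻¹ := by
      rw [norm_div, norm_one, RCLike.norm_conj, one_div]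
    have hlt1 : ‖1 / conj z‖ < 1 := by
      rw [hnorm]
      exact inv_lt_one_of_one_lt₀ h1
    have hgt : r⁻¹ < ‖1 / conj z‖ := by
      rw [hnorm]
      exact (inv_lt_inv₀ hr0 (by linarith)).2 h2
    refine ⟨h1, fun b => ?_, fun g0 xs ct h => ?_⟩
    · obtain ⟨G', hG', hV⟩ := voltB_of_sol φ r r lam c u G hr le_rfl hφ hinj hlam hc hS b
      have hexp : Real.exp (Real.log r) = r := Real.exp_log hr0
      refine hSTART t_KAP t_SEG t_PAR φ G' (lam / 4) (Real.log r) b _ ha (Real.log_pos hr)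
        (by rw [hexp]; exact hφ) hG' hV ?_ hlt1
      rw [Real.exp_neg, hexp]
      exact hgt
    · exact hREL φ r _ g0 xs ct hr hφ hgt hlt1 h
  | step z z' c' ρ f g hbr hB hg hz hz' hfg ih =>
    obtain ⟨hz1, ihV, ihR⟩ := ih
    have hz0 : z ≠ 0 := by
      rintro rfl
      rw [norm_zero] at hz1
      linarith
    have hz1' : 1 < ‖z'‖ := hB z' hz'
    have hz0' : z' ≠ 0 := by
      rintro rfl
      rw [norm_zero] at hz1'
      linarith
    obtain ⟨hVo, hVs, hVc, hVd⟩ := hREFL.1 (ball c' ρ) g isOpen_ball hB hg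
    have hVc' := hVc (convex_ball c' ρ).isPreconnected
    have hmem : ∀ x : ℂ, x ≠ 0 → x ∈ ball c' ρ →
        1 / conj x ∈ {v : ℂ | v ≠ 0 ∧ 1 / conj v ∈ ball c' ρ} := by
      intro x hx hxb
      have hx' : conj x ≠ 0 := (map_ne_zero _).2 hx
      refine ⟨div_ne_zero one_ne_zero hx', ?_⟩
      have : 1 / conj (1 / conj x) = x := by
        rw [map_div₀, map_one, Complex.conj_conj, one_div_one_div]
      rw [this]
      exact hxb
    have hgerm := hREFL.2.1 f g z hz0 hfg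
    refine ⟨hz1', fun b => ?_, fun g0 xs ct h => ?_⟩
    · obtain ⟨hC1, hC2⟩ := hCONN hSTEP t_KAP t_SEG t_PAR φ (lam / 4) b ha hφ1
      exact hC1 _ (Rf g) _ _ hVo hVc' hVs hVd (hmem z hz0 hz) (hmem z' hz0' hz')
        (hC2 (Rf f) (Rf g) _ hgerm (ihV b))
    · refine ihR g0 xs ct ?_
      have hEq : EqOn (fun v => (Rf g v - g0) * (φ v - xs)) (fun _ => ct)
          {v : ℂ | v ≠ 0 ∧ 1 / conj v ∈ ball c' ρ} := by
        refine AnalyticOnNhd.eqOn_of_preconnected_of_eventuallyEq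
          (((hVd.sub_const _).mul ((hφ1.mono hVs).sub_const _)).analyticOnNhd hVo)
          analyticOnNhd_const hVc' (hmem z' hz0' hz') h
      filter_upwards [hgerm, hVo.mem_nhds (hmem z hz0 hz)] with v hv1 hv2
      rw [hv1]
      exact hEq hv2

/-- the final statement: finite isolated singularities -/
theorem finA (hSTART : U_START) (hSTEP : U_STEP) (hCONN : U_CONN) (hREL : U_REL)
    (hREFL : U_REFL) (hRES : U_RES) (φ : ℂ → ℂ) (r lam c : ℝ) (u : ℂ → ℝ) (G : ℂ → ℂ) (hr : 1 < r)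
    (hφ : DifferentiableOn ℂ φ (ball 0 r)) (hinj : InjOn φ (ball 0 r)) (hlam : 0 < lam)
    (hc : c ≠ 0) (hS : Sol (φ '' ball 0 1) lam c u G) (z : ℂ) (f : ℂ → ℂ) (h : Branch φ r z f)
    (w1 : ℂ) (ε : ℝ) (hε : 0 < ε) (ψ : ℂ → ℂ) (hB : ∀ w ∈ ball w1 ε, 1 < ‖w‖)
    (hψ : DifferentiableOn ℂ ψ (ball w1 ε \ {w1})) (hz : z ∈ ball w1 ε \ {w1})
    (hfψ : f =ᶠ[𝓝 z] ψ) :
    (∃ (p : ℂ) (r0 : ℝ), 0 < r0 ∧ φ '' ball 0 1 = ball p r0) ∨
    ∃ E : ℂ → ℂ, DifferentiableOn ℂ E (ball w1 ε) ∧ ∀ w ∈ ball w1 ε, w ≠ w1 → E w = ψ w := by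
  have ha : 0 < lam / 4 := by positivity
  have hφ1 : DifferentiableOn ℂ φ (ball 0 1) := hφ.mono (ball_subset_ball hr.le)
  obtain ⟨hz1, hV, hR⟩ := branch_inv hSTART hSTEP hCONN hREL hREFL φ r lam c u G hr hφ hinj hlam hc
    hS z f h
  have hz0 : z ≠ 0 := by
    rintro rfl
    rw [norm_zero] at hz1
    linarith
  have hw11 : 1 < ‖w1‖ := hB w1 (mem_ball_self hε)
  have hw10 : w1 ≠ 0 := by
    rintro rfl
    rw [norm_zero] at hw11
    linarith
  have hopen : IsOpen (ball w1 ε \ {w1}) := isOpen_ball.sdiff isClosed_singleton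
  obtain ⟨hVo, hVs, hVc, hVd⟩ := hREFL.1 (ball w1 ε \ {w1}) ψ hopen (fun w hw => hB w hw.1) hψ
  have hVc' := hVc (punct w1 ε)
  obtain ⟨V, hVdef⟩ : ∃ V : Set ℂ, V = {v : ℂ | v ≠ 0 ∧ 1 / conj v ∈ ball w1 ε \ {w1}} := ⟨_, rfl⟩
  rw [← hVdef] at hVo hVs hVc' hVd
  obtain ⟨P, hPdef⟩ : ∃ P : ℂ, P = 1 / conj w1 := ⟨_, rfl⟩
  obtain ⟨ρ, hρ, hPs, hPm⟩ := hREFL.2.2.2.1 w1 hw11 ε hε
  rw [← hPdef] at hPs hPm
  have hinv : ∀ x : ℂ, 1 / conj (1 / conj x) = x := fun x => by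
    rw [map_div₀, map_one, Complex.conj_conj, one_div_one_div]
  have hsubV : ball P ρ \ {P} ⊆ V := by
    intro v hv
    rw [hVdef]
    obtain ⟨h1, h2⟩ := hPm v hv.1
    refine ⟨h1, h2, ?_⟩
    intro h3
    apply hv.2
    rw [mem_singleton_iff] at h3 ⊢
    rw [hPdef, ← h3, hinv]
  have huV : 1 / conj z ∈ V := by
    rw [hVdef]
    refine ⟨div_ne_zero one_ne_zero ((map_ne_zero _).2 hz0), ?_⟩
    rw [hinv]
    exact hz
  have hu' : P + ((ρ / 2 : ℝ) : ℂ) ∈ ball P ρ \ {P} := by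
    refine ⟨?_, ?_⟩
    · rw [mem_ball_iff_norm, add_sub_cancel_left, Complex.norm_real, Real.norm_eq_abs,
        abs_of_pos (by linarith)]
      linarith
    · intro h3
      rw [mem_singleton_iff, add_eq_left] at h3
      have : (ρ / 2 : ℝ) = 0 := by exact_mod_cast h3
      linarith
  have hgerm := hREFL.2.1 f ψ z hz0 hfψ
  have hVG : ∀ b, VG (lam / 4) φ b (P + ((ρ / 2 : ℝ) : ℂ)) (Rf ψ) := by
    intro b
    obtain ⟨hC1, hC2⟩ := hCONN hSTEP t_KAP t_SEG t_PAR φ (lam / 4) b ha hφ1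
    exact hC1 V (Rf ψ) _ _ hVo hVc' hVs hVd huV (hsubV hu') (hC2 (Rf f) (Rf ψ) _ hgerm (hV b))
  have hRel : ∀ g0 xs ct : ℂ,
      (∀ᶠ v in 𝓝 (P + ((ρ / 2 : ℝ) : ℂ)), (Rf ψ v - g0) * (φ v - xs) = ct) →
      ∀ w ∈ sphere (0 : ℂ) 1, (conj (φ w) - g0) * (φ w - xs) = ct := by
    intro g0 xs ct h
    refine hR g0 xs ct ?_
    have hEq : EqOn (fun v => (Rf ψ v - g0) * (φ v - xs)) (fun _ => ct) V := by
      refine AnalyticOnNhd.eqOn_of_preconnected_of_eventuallyEq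
        (((hVd.sub_const _).mul ((hφ1.mono hVs).sub_const _)).analyticOnNhd hVo)
        analyticOnNhd_const hVc' (hsubV hu') h
    filter_upwards [hgerm, hVo.mem_nhds huV] with v hv1 hv2
    rw [hv1]
    exact hEq hv2
  rcases mainU hRES hSTEP φ r (lam / 4) hr hφ hinj ha P ρ hρ hPs (Rf ψ) (hVd.mono hsubV) _ hu' hVG
    hRel with h1 | ⟨E, hE, hEX⟩
  · exact Or.inl h1
  right
  obtain ⟨δ, hδ, hδm⟩ := hREFL.2.2.2.2 w1 hw11 ρ hρ
  rw [← hPdef] at hδm
  -- the reflected extension near `w1`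
  have hEr : ∀ w ∈ ball w1 δ, w ≠ w1 → Rf E w = ψ w := by
    intro w hw hne
    obtain ⟨hw0, hwP⟩ := hδm w hw
    have h2 : 1 / conj w ≠ P := by
      intro h3
      apply hne
      rw [← hinv w, h3, hPdef, hinv]
    have h3 : Rf E w = Rf (Rf ψ) w := by
      unfold Rf
      have := hEX (1 / conj w) hwP h2
      unfold Rf at this
      rw [this]
    rw [h3, hREFL.2.2.1 ψ w hw0]
  have hEd : DifferentiableAt ℂ (Rf E) w1 := by
    have h1 : HasDerivAt (fun v : ℂ => E (conj (v⁻¹))) 0 w1 ∨ True := Or.inr trivial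
    have h2 : DifferentiableAt ℂ (conj ∘ E ∘ conj) (w1⁻¹) := by
      rw [differentiableAt_conj_conj_iff]
      have : conj (w1⁻¹) = P := by
        rw [hPdef, map_inv₀, one_div]
      rw [this]
      exact hE.differentiableAt (isOpen_ball.mem_nhds (mem_ball_self hρ))
    have h3 : Rf E = (conj ∘ E ∘ conj) ∘ (fun v : ℂ => v⁻¹) := by
      funext v
      simp only [Rf, Function.comp_apply, map_inv₀, one_div]
    rw [h3]
    exact h2.comp w1 (differentiableAt_inv hw10)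
  classical
  refine ⟨fun w => if w = w1 then Rf E w1 else ψ w, ?_, fun w _ hne => if_neg hne⟩
  intro w hw
  apply DifferentiableAt.differentiableWithinAt
  by_cases hne : w = w1
  · subst hne
    refine hEd.congr_of_eventuallyEq ?_
    filter_upwards [ball_mem_nhds w hδ] with v hv
    by_cases hv1 : v = w
    · simp [hv1]
    · simp only [if_neg hv1]
      exact (hEr v hv hv1).symm
  · refine (hψ.differentiableAt (hopen.mem_nhds ⟨hw, hne⟩)).congr_of_eventuallyEq ?_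
    filter_upwards [isOpen_ne.mem_nhds hne] with v hv
    exact if_neg hv

/-- the final statement: isolated singularities at infinity -/
theorem finB (hSTART : U_START) (hSTEP : U_STEP) (hCONN : U_CONN) (hREL : U_REL)
    (hREFL : U_REFL) (hRES : U_RES) (φ : ℂ → ℂ) (r lam c : ℝ) (u : ℂ → ℝ) (G : ℂ → ℂ) (hr : 1 < r)
    (hφ : DifferentiableOn ℂ φ (ball 0 r)) (hinj : InjOn φ (ball 0 r)) (hlam : 0 < lam)
    (hc : c ≠ 0) (hS : Sol (φ '' ball 0 1) lam c u G) (z : ℂ) (f : ℂ → ℂ) (h : Branch φ r z f)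
    (K : ℝ) (hK : 1 ≤ K) (ψ : ℂ → ℂ) (hψ : DifferentiableOn ℂ ψ {w : ℂ | K < ‖w‖}) (hz : K < ‖z‖)
    (hfψ : f =ᶠ[𝓝 z] ψ) :
    (∃ (p : ℂ) (r0 : ℝ), 0 < r0 ∧ φ '' ball 0 1 = ball p r0) ∨
    ∃ L : ℂ, Tendsto ψ (Bornology.cobounded ℂ) (𝓝 L) := by
  have ha : 0 < lam / 4 := by positivity
  have hK0 : 0 < K := by linarith
  have hφ1 : DifferentiableOn ℂ φ (ball 0 1) := hφ.mono (ball_subset_ball hr.le)
  obtain ⟨hz1, hV, hR⟩ := branch_inv hSTART hSTEP hCONN hREL hREFL φ r lam c u G hr hφ hinj hlam hc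
    hS z f h
  have hz0 : z ≠ 0 := by
    rintro rfl
    rw [norm_zero] at hz1
    linarith
  have hopen : IsOpen {w : ℂ | K < ‖w‖} := isOpen_lt continuous_const continuous_norm
  obtain ⟨hVo, hVs, -, hVd⟩ := hREFL.1 {w : ℂ | K < ‖w‖} ψ hopen
    (fun w hw => lt_of_le_of_lt hK hw) hψ
  have hsubV : ball (0 : ℂ) (1 / K) \ {0} ⊆ {v : ℂ | v ≠ 0 ∧ 1 / conj v ∈ {w : ℂ | K < ‖w‖}} := by
    intro v hv
    have hv0 : v ≠ 0 := hv.2
    refine ⟨hv0, ?_⟩
    have h1 := hv.1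
    rw [mem_ball_zero_iff] at h1
    rw [mem_setOf_eq, norm_div, norm_one, RCLike.norm_conj]
    exact (lt_div_comm₀ hK0 (norm_pos_iff.2 hv0)).2 h1
  have hgerm := hREFL.2.1 f ψ z hz0 hfψ
  have hu : 1 / conj z ∈ ball (0 : ℂ) (1 / K) \ {0} := by
    refine ⟨?_, div_ne_zero one_ne_zero ((map_ne_zero _).2 hz0)⟩
    rw [mem_ball_zero_iff, norm_div, norm_one, RCLike.norm_conj]
    exact one_div_lt_one_div_of_lt hK0 hz
  have hP : ball (0 : ℂ) (1 / K) ⊆ ball 0 1 := ball_subset_ball ((div_le_one hK0).2 hK)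
  have hVG : ∀ b, VG (lam / 4) φ b (1 / conj z) (Rf ψ) := fun b =>
    (hCONN hSTEP t_KAP t_SEG t_PAR φ (lam / 4) b ha hφ1).2 (Rf f) (Rf ψ) _ hgerm (hV b)
  rcases mainU hRES hSTEP φ r (lam / 4) hr hφ hinj ha 0 (1 / K) (by positivity) hP (Rf ψ)
    (hVd.mono hsubV) _ hu hVG (fun g0 xs ct h => hR g0 xs ct (by
      filter_upwards [hgerm, h] with v hv1 hv2
      rw [hv1]
      exact hv2)) with h1 | ⟨E, hE, hEX⟩
  · exact Or.inl h1
  right
  refine ⟨conj (E 0), ?_⟩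
  have h1 : Tendsto (fun w : ℂ => 1 / conj w) (Bornology.cobounded ℂ) (𝓝 0) := by
    have h2 : Tendsto (fun w : ℂ => conj (w⁻¹)) (Bornology.cobounded ℂ) (𝓝 (conj 0)) :=
      (Complex.continuous_conj.tendsto 0).comp tendsto_inv₀_cobounded
    rw [map_zero] at h2
    refine h2.congr fun w => ?_
    rw [map_inv₀, one_div]
  have h3 : ContinuousAt E 0 :=
    (hE.continuousOn).continuousAt (isOpen_ball.mem_nhds (mem_ball_self (by positivity)))
  have h4 : Tendsto (fun w : ℂ => conj (E (1 / conj w))) (Bornology.cobounded ℂ)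
      (𝓝 (conj (E 0))) :=
    (Complex.continuous_conj.tendsto _).comp (h3.tendsto.comp h1)
  refine h4.congr' ?_
  have h5 : ∀ᶠ w : ℂ in Bornology.cobounded ℂ, K < ‖w‖ :=
    tendsto_norm_cobounded_atTop.eventually_gt_atTop K
  filter_upwards [h5] with w hw
  have hw0 : w ≠ 0 := by
    rintro rfl
    rw [norm_zero] at hw
    linarith
  have h6 : 1 / conj w ∈ ball (0 : ℂ) (1 / K) := by
    rw [mem_ball_zero_iff, norm_div, norm_one, RCLike.norm_conj]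
    exact one_div_lt_one_div_of_lt hK0 hw
  have h7 := hEX _ h6 (div_ne_zero one_ne_zero ((map_ne_zero _).2 hw0))
  rw [h7]
  exact hREFL.2.2.1 ψ w hw0

end Pool.Agent.Y245.UC
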