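import Pool.Agent.Y245.UC.Stm2
import Pool.Agent.Y245.UC.Main

/-!
Project UC: bounded elements.
-/

set_option autoImplicit false

open Complex MeasureTheory Metric Set Filter Topology ComplexConjugate
open Pool.Agent.TH298.Sch (Sol)
open Pool.Agent.Y245.SC

namespace Pool.Agent.Y245.UC

theorem closed_norm (c : ℂ) (ρ : ℝ) (hρ : 0 < ρ) (hB : ∀ w ∈ closedBall c ρ, 1 < ‖w‖) :
    1 < ‖c‖ - ρ := by
  have h0 : ρ < ‖c‖ := by
    by_contra hcon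
    push Not at hcon
    have h1 : (0 : ℂ) ∈ closedBall c ρ := by
      rw [mem_closedBall, dist_eq_norm, zero_sub, norm_neg]
      exact hcon
    have := hB 0 h1
    rw [norm_zero] at this
    linarith
  have hc : 0 < ‖c‖ := by linarith
  have h2 : (((1 - ρ / ‖c‖ : ℝ)) : ℂ) * c ∈ closedBall c ρ := by
    rw [mem_closedBall, dist_eq_norm]
    have : (((1 - ρ / ‖c‖ : ℝ)) : ℂ) * c - c = -(((ρ / ‖c‖ : ℝ) : ℂ) * c) := by
      push_cast
      ring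
    rw [this, norm_neg, norm_mul, Complex.norm_real, Real.norm_of_nonneg (by positivity),
      div_mul_cancel₀ _ hc.ne']
  have h3 := hB _ h2
  rw [norm_mul, Complex.norm_real, Real.norm_of_nonneg (by
    rw [sub_nonneg, div_le_one hc]
    exact h0.le)] at h3
  have : (1 - ρ / ‖c‖) * ‖c‖ = ‖c‖ - ρ := by
    field_simp
  linarith

theorem sphere_refl (c w1 : ℂ) (ρ : ℝ) (hρ : 0 < ρ) (hD : 0 < ‖c‖ ^ 2 - ρ ^ 2) (hw0 : w1 ≠ 0)
    (hw : w1 ∈ sphere c ρ) :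
    1 / conj w1 ∈ sphere (((1 / (‖c‖ ^ 2 - ρ ^ 2) : ℝ) : ℂ) * c) (ρ / (‖c‖ ^ 2 - ρ ^ 2)) := by
  obtain ⟨D, hDd⟩ : ∃ D : ℝ, D = ‖c‖ ^ 2 - ρ ^ 2 := ⟨_, rfl⟩
  rw [← hDd] at hD ⊢
  rw [mem_sphere_iff_norm] at hw ⊢
  have hconj : conj w1 ≠ 0 := (map_ne_zero _).2 hw0
  have hDc : ((D : ℝ) : ℂ) ≠ 0 := by exact_mod_cast hD.ne'
  have hn : 0 < ‖w1‖ := norm_pos_iff.2 hw0
  have key : Complex.normSq ((D : ℂ) - c * conj w1) = ‖w1‖ ^ 2 * ρ ^ 2 := by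
    have h1 : Complex.normSq (w1 - c) = ρ ^ 2 := by
      rw [Complex.normSq_eq_norm_sq, hw]
    have h2 : ‖w1‖ ^ 2 = w1.re ^ 2 + w1.im ^ 2 := by
      rw [← Complex.normSq_eq_norm_sq, Complex.normSq_apply]
      ring
    have h3 : ‖c‖ ^ 2 = c.re ^ 2 + c.im ^ 2 := by
      rw [← Complex.normSq_eq_norm_sq, Complex.normSq_apply]
      ring
    rw [Complex.normSq_apply] at h1
    simp only [Complex.sub_re, Complex.sub_im] at h1
    rw [Complex.normSq_apply]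
    simp only [Complex.sub_re, Complex.sub_im, Complex.mul_re, Complex.mul_im, Complex.conj_re,
      Complex.conj_im, Complex.ofReal_re, Complex.ofReal_im]
    rw [h2]
    have h4 : D = c.re ^ 2 + c.im ^ 2 - ρ ^ 2 := by rw [hDd, h3]
    have h5 : w1.re ^ 2 + w1.im ^ 2 = 2 * (c.re * w1.re + c.im * w1.im) - D := by
      rw [h4]
      nlinarith
    have h6 : c.re * w1.re + c.im * w1.im = (w1.re ^ 2 + w1.im ^ 2 + D) / 2 := by linarith
    have h7 : (D - (c.re * w1.re - c.im * -w1.im)) * (D - (c.re * w1.re - c.im * -w1.im)) +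
        (0 - (c.re * -w1.im + c.im * w1.re)) * (0 - (c.re * -w1.im + c.im * w1.re)) =
        D ^ 2 - 2 * D * (c.re * w1.re + c.im * w1.im) +
          (c.re ^ 2 + c.im ^ 2) * (w1.re ^ 2 + w1.im ^ 2) := by ring
    rw [h7, h6]
    have h8 : c.re ^ 2 + c.im ^ 2 = D + ρ ^ 2 := by linarith
    rw [h8]
    ring
  have h1 : 1 / conj w1 - ((1 / D : ℝ) : ℂ) * c = ((D : ℂ) - c * conj w1) / (conj w1 * D) := by
    push_cast
    field_simp
  rw [h1, norm_div, norm_mul, RCLike.norm_conj, Complex.norm_real, Real.norm_of_nonneg hD.le]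
  have h2 : ‖(D : ℂ) - c * conj w1‖ = ‖w1‖ * ρ := by
    rw [Complex.normSq_eq_norm_sq] at key
    have h3 : ‖(D : ℂ) - c * conj w1‖ ^ 2 = (‖w1‖ * ρ) ^ 2 := by rw [key]; ring
    exact (pow_left_inj₀ (norm_nonneg _) (by positivity) two_ne_zero).1 h3
  rw [h2]
  field_simp

/-- bounded elements extend -/
theorem finD (hSTART : U_START) (hSTEP : U_STEP) (hCONN : U_CONN) (hREL : U_REL)
    (hREFL : U_REFL) (hDISC : U_DISC) (hLOC : U_LOC) (φ : ℂ → ℂ) (r lam c0 : ℝ) (u : ℂ → ℝ)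
    (G : ℂ → ℂ) (hr : 1 < r) (hφ : DifferentiableOn ℂ φ (ball 0 r)) (hinj : InjOn φ (ball 0 r))
    (hlam : 0 < lam) (hc : c0 ≠ 0) (hS : Sol (φ '' ball 0 1) lam c0 u G) (z : ℂ) (g : ℂ → ℂ)
    (h : Branch φ r z g) (c : ℂ) (ρ M : ℝ) (hρ : 0 < ρ) (hB : ∀ w ∈ closedBall c ρ, 1 < ‖w‖)
    (hg : DifferentiableOn ℂ g (ball c ρ)) (hgM : ∀ w ∈ ball c ρ, ‖g w‖ ≤ M) (hz : z ∈ ball c ρ)
    (w1 : ℂ) (hw1 : w1 ∈ sphere c ρ) :
    ∃ (ε : ℝ) (E : ℂ → ℂ), 0 < ε ∧ DifferentiableOn ℂ E (ball w1 ε) ∧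
      ∀ w ∈ ball w1 ε ∩ ball c ρ, E w = g w := by
  have ha : 0 < lam / 4 := by positivity
  have hφ1 : DifferentiableOn ℂ φ (ball 0 1) := hφ.mono (ball_subset_ball hr.le)
  obtain ⟨hz1, hV, -⟩ := branch_inv hSTART hSTEP hCONN hREL hREFL φ r lam c0 u G hr hφ hinj hlam hc
    hS z g h
  have hz0 : z ≠ 0 := by
    rintro rfl
    rw [norm_zero] at hz1
    linarith
  have hcρ := closed_norm c ρ hρ hB
  have hD : 0 < ‖c‖ ^ 2 - ρ ^ 2 := by nlinarith [norm_nonneg c]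
  have hw1n : 1 < ‖w1‖ := hB w1 (sphere_subset_closedBall hw1)
  have hw10 : w1 ≠ 0 := by
    rintro rfl
    rw [norm_zero] at hw1n
    linarith
  have hBb : ∀ w ∈ ball c ρ, 1 < ‖w‖ := fun w hw => hB w (ball_subset_closedBall hw)
  obtain ⟨hVo, hVs, -, hVd⟩ := hREFL.1 (ball c ρ) g isOpen_ball hBb hg
  have hDD := hDISC c ρ hρ hcρ.le
  obtain ⟨C, hC⟩ : ∃ C : ℂ, C = ((1 / (‖c‖ ^ 2 - ρ ^ 2) : ℝ) : ℂ) * c := ⟨_, rfl⟩
  obtain ⟨R, hR⟩ : ∃ R : ℝ, R = ρ / (‖c‖ ^ 2 - ρ ^ 2) := ⟨_, rfl⟩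
  have hR0 : 0 < R := by rw [hR]; positivity
  rw [← hC, ← hR] at hDD
  have hclosed : closedBall C R ⊆ ball 0 1 := by
    intro v hv
    rw [mem_closedBall_iff_norm] at hv
    rw [mem_ball_zero_iff]
    have h1 : ‖v‖ ≤ ‖v - C‖ + ‖C‖ := by
      have := norm_add_le (v - C) C
      rwa [sub_add_cancel] at this
    have h2 : ‖C‖ = ‖c‖ / (‖c‖ ^ 2 - ρ ^ 2) := by
      rw [hC, norm_mul, Complex.norm_real, Real.norm_of_nonneg (by positivity)]
      ring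
    have h3 : ‖C‖ + R = 1 / (‖c‖ - ρ) := by
      rw [h2, hR]
      have h4 : ‖c‖ - ρ ≠ 0 := by linarith
      have h5 : ‖c‖ ^ 2 - ρ ^ 2 = (‖c‖ - ρ) * (‖c‖ + ρ) := by ring
      have h6 : ‖c‖ + ρ ≠ 0 := by linarith [norm_nonneg c]
      rw [h5]
      field_simp
    have h4 : 1 / (‖c‖ - ρ) < 1 := by
      rw [div_lt_one (by linarith)]
      exact hcρ
    linarith
  have hinv : ∀ x : ℂ, 1 / conj (1 / conj x) = x := fun x => by
    rw [map_div₀, map_one, Complex.conj_conj, one_div_one_div]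
  have hp : 1 / conj z ∈ ball C R := by
    rw [← hDD]
    refine ⟨div_ne_zero one_ne_zero ((map_ne_zero _).2 hz0), ?_⟩
    rw [hinv]
    exact hz
  have hP : 1 / conj w1 ∈ sphere C R := by
    rw [hC, hR]
    exact sphere_refl c w1 ρ hρ hD hw10 hw1
  obtain ⟨δ, F', hδ, hF', hFF⟩ := hLOC hSTEP t_KAP t_SEG t_PAR Pool.Agent.Y381.SC.pic φ (Rf g)
    (lam / 4) R M C (1 / conj z) (1 / conj w1) ha hR0 hφ1 hclosed (by rw [← hDD]; exact hVd) (by
      intro v hv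
      rw [← hDD] at hv
      unfold Rf
      rw [RCLike.norm_conj]
      exact hgM _ hv.2) hp (hV 0) hP
  obtain ⟨ε, hε, hεm⟩ := hREFL.2.2.2.2 w1 hw1n δ hδ
  refine ⟨ε, Rf F', hε, ?_, ?_⟩
  · intro w hw
    obtain ⟨hw0, hwP⟩ := hεm w hw
    have h2 : DifferentiableAt ℂ (conj ∘ F' ∘ conj) (w⁻¹) := by
      rw [differentiableAt_conj_conj_iff]
      have : conj (w⁻¹) = 1 / conj w := by
        rw [map_inv₀, one_div]
      rw [this]
      exact hF'.differentiableAt (isOpen_ball.mem_nhds hwP)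
    have h3 : Rf F' = (conj ∘ F' ∘ conj) ∘ (fun v : ℂ => v⁻¹) := by
      funext v
      simp only [Rf, Function.comp_apply, map_inv₀, one_div]
    rw [h3]
    exact (h2.comp w (differentiableAt_inv hw0)).differentiableWithinAt
  · rintro w ⟨hw, hwc⟩
    obtain ⟨hw0, hwP⟩ := hεm w hw
    have h1 : 1 / conj w ∈ ball C R := by
      rw [← hDD]
      refine ⟨div_ne_zero one_ne_zero ((map_ne_zero _).2 hw0), ?_⟩
      rw [hinv]
      exact hwc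
    have h2 := hFF _ ⟨hwP, h1⟩
    have h3 : Rf F' w = Rf (Rf g) w := by
      unfold Rf
      unfold Rf at h2
      rw [h2]
    rw [h3, hREFL.2.2.1 g w hw0]

/-- a branch that is bounded near a boundary point of a disc extends to this point -/
theorem finD' (hSTART : U_START) (hSTEP : U_STEP) (hCONN : U_CONN) (hREL : U_REL)
    (hREFL : U_REFL) (hDISC : U_DISC) (hLOC : U_LOC) (φ : ℂ → ℂ) (r lam c0 : ℝ) (u : ℂ → ℝ)
    (G : ℂ → ℂ) (hr : 1 < r) (hφ : DifferentiableOn ℂ φ (ball 0 r)) (hinj : InjOn φ (ball 0 r))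
    (hlam : 0 < lam) (hc : c0 ≠ 0) (hS : Sol (φ '' ball 0 1) lam c0 u G) (z : ℂ) (g : ℂ → ℂ)
    (h : Branch φ r z g) (c : ℂ) (ρ : ℝ) (hρ : 0 < ρ) (hB : ∀ w ∈ closedBall c ρ, 1 < ‖w‖)
    (hg : DifferentiableOn ℂ g (ball c ρ)) (hz : z ∈ ball c ρ)
    (w1 : ℂ) (hw1 : w1 ∈ sphere c ρ) (M δ : ℝ) (hδ : 0 < δ)
    (hgM : ∀ w ∈ ball c ρ, ‖w - w1‖ < δ → ‖g w‖ ≤ M) :
    ∃ (ε : ℝ) (E : ℂ → ℂ), 0 < ε ∧ DifferentiableOn ℂ E (ball w1 ε) ∧
      ∀ w ∈ ball w1 ε ∩ ball c ρ, E w = g w := by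
  rw [mem_sphere_iff_norm] at hw1
  obtain ⟨t, ht⟩ : ∃ t : ℝ, t = min 1 (δ / (2 * ρ)) := ⟨_, rfl⟩
  have ht0 : 0 < t := by
    rw [ht]
    exact lt_min one_pos (by positivity)
  have ht1 : t ≤ 1 := by rw [ht]; exact min_le_left _ _
  have ht2 : 2 * (t * ρ) ≤ δ := by
    have h1 : t ≤ δ / (2 * ρ) := by rw [ht]; exact min_le_right _ _
    have h2 : t * (2 * ρ) ≤ δ := (le_div_iff₀ (by positivity)).1 h1
    linarith
  obtain ⟨c1, hc1⟩ : ∃ c1 : ℂ, c1 = w1 + (t : ℂ) * (c - w1) := ⟨_, rfl⟩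
  have hcw : ‖c1 - w1‖ = t * ρ := by
    rw [hc1, add_sub_cancel_left, norm_mul, Complex.norm_real, Real.norm_of_nonneg ht0.le,
      norm_sub_rev, hw1]
  have hcc : ‖c1 - c‖ = (1 - t) * ρ := by
    have : c1 - c = ((1 - t : ℝ) : ℂ) * (w1 - c) := by
      rw [hc1]
      push_cast
      ring
    rw [this, norm_mul, Complex.norm_real, Real.norm_of_nonneg (by linarith), hw1]
  have hsub : ball c1 (t * ρ) ⊆ ball c ρ := by
    intro w hw
    rw [mem_ball_iff_norm] at hw ⊢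
    have h1 : ‖w - c‖ ≤ ‖w - c1‖ + ‖c1 - c‖ := norm_sub_le_norm_sub_add_norm_sub _ _ _
    rw [hcc] at h1
    linarith
  have hsubc : closedBall c1 (t * ρ) ⊆ closedBall c ρ := by
    intro w hw
    rw [mem_closedBall_iff_norm] at hw ⊢
    have h1 : ‖w - c‖ ≤ ‖w - c1‖ + ‖c1 - c‖ := norm_sub_le_norm_sub_add_norm_sub _ _ _
    rw [hcc] at h1
    linarith
  have hnear : ∀ w ∈ ball c1 (t * ρ), ‖w - w1‖ < δ := by
    intro w hw
    rw [mem_ball_iff_norm] at hw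
    have h1 : ‖w - w1‖ ≤ ‖w - c1‖ + ‖c1 - w1‖ := norm_sub_le_norm_sub_add_norm_sub _ _ _
    rw [hcw] at h1
    linarith
  have hρ1 : 0 < t * ρ := mul_pos ht0 hρ
  have hc1b : c1 ∈ ball c1 (t * ρ) := mem_ball_self hρ1
  have hbr : Branch φ r c1 g :=
    Branch.step z c1 c ρ g g h (fun w hw => hB w (ball_subset_closedBall hw)) hg hz (hsub hc1b)
      (EventuallyEq.refl _ _)
  have hw1' : w1 ∈ sphere c1 (t * ρ) := by
    rw [mem_sphere_iff_norm, norm_sub_rev]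
    exact hcw
  obtain ⟨ε, E, hε, hE, hEg⟩ := finD hSTART hSTEP hCONN hREL hREFL hDISC hLOC φ r lam c0 u G hr hφ
    hinj hlam hc hS c1 g hbr c1 (t * ρ) M hρ1 (fun w hw => hB w (hsubc hw)) (hg.mono hsub)
    (fun w hw => hgM w (hsub hw) (hnear w hw)) hc1b w1 hw1'
  refine ⟨ε, E, hε, hE, ?_⟩
  have hconv : IsPreconnected (ball w1 ε ∩ ball c ρ) :=
    ((convex_ball w1 ε).inter (convex_ball c ρ)).isPreconnected
  have hopen : IsOpen (ball w1 ε ∩ ball c ρ) := isOpen_ball.inter isOpen_ball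
  -- a common point of the two small balls
  obtain ⟨q, hq1, hq2⟩ : ∃ q : ℂ, q ∈ ball w1 ε ∧ q ∈ ball c1 (t * ρ) := by
    have h1 : w1 ∈ closure (ball c1 (t * ρ)) := by
      rw [closure_ball _ hρ1.ne']
      exact sphere_subset_closedBall hw1'
    obtain ⟨q, hq⟩ := mem_closure_iff_nhds.1 h1 (ball w1 ε) (ball_mem_nhds w1 hε)
    exact ⟨q, hq.1, hq.2⟩
  have hEq : EqOn E g (ball w1 ε ∩ ball c ρ) := by
    refine AnalyticOnNhd.eqOn_of_preconnected_of_eventuallyEq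
      ((hE.mono inter_subset_left).analyticOnNhd hopen)
      ((hg.mono inter_subset_right).analyticOnNhd hopen) hconv ⟨hq1, hsub hq2⟩ ?_
    filter_upwards [(isOpen_ball.inter isOpen_ball).mem_nhds ⟨hq1, hq2⟩] with w hw
    exact hEg w hw
  exact hEq

end Pool.Agent.Y245.UC
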