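import Pool.Agent.Y245.UC.Stm3
import Pool.Agent.Y245.UC.MainD

/-!
Project UC: growth of exponent less than one at a boundary point of a disc.
-/

set_option autoImplicit false

open Complex MeasureTheory Metric Set Filter Topology ComplexConjugate
open Pool.Agent.TH298.Sch (Sol)
open Pool.Agent.Y245.SC

namespace Pool.Agent.Y245.UC

/-- distances to the circle under reflection -/
theorem refl_dist (c v : ℂ) (ρ D : ℝ) (hρ : 0 < ρ) (hDd : D = ‖c‖ ^ 2 - ρ ^ 2) (hD : 0 < D)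
    (hv0 : v ≠ 0) (hv1 : ‖v‖ < 1) (hw : ‖1 / conj v - c‖ < ρ)
    (hvC : ‖v - ((1 / D : ℝ) : ℂ) * c‖ < ρ / D) :
    (ρ / D - ‖v - ((1 / D : ℝ) : ℂ) * c‖) / 2 ≤ ρ - ‖1 / conj v - c‖ := by
  have hconj : conj v ≠ 0 := (map_ne_zero _).2 hv0
  have hn : 0 < ‖v‖ := norm_pos_iff.2 hv0
  obtain ⟨s, hs⟩ : ∃ s : ℝ, s = ‖1 / conj v - c‖ := ⟨_, rfl⟩
  obtain ⟨t, ht⟩ : ∃ t : ℝ, t = ‖v - ((1 / D : ℝ) : ℂ) * c‖ := ⟨_, rfl⟩
  have hs0 : 0 ≤ s := by rw [hs]; exact norm_nonneg _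
  have ht0 : 0 ≤ t := by rw [ht]; exact norm_nonneg _
  have key : ‖v‖ ^ 2 * (s ^ 2 - ρ ^ 2) = D * (t ^ 2 - (ρ / D) ^ 2) := by
    have h1 : ‖v‖ * s = ‖1 - c * conj v‖ := by
      have : 1 / conj v - c = (1 - c * conj v) / conj v := by
        field_simp
      rw [hs, this, norm_div, RCLike.norm_conj, mul_div_cancel₀ _ hn.ne']
    have h2 : D * t = ‖(D : ℂ) * v - c‖ := by
      have hDc : ((D : ℝ) : ℂ) ≠ 0 := by exact_mod_cast hD.ne'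
      have : (D : ℂ) * v - c = (D : ℂ) * (v - ((1 / D : ℝ) : ℂ) * c) := by
        push_cast
        field_simp
      rw [this, norm_mul, Complex.norm_real, Real.norm_of_nonneg hD.le, ht]
    have h3 : ‖1 - c * conj v‖ ^ 2 = 1 - 2 * (c.re * v.re + c.im * v.im) + ‖c‖ ^ 2 * ‖v‖ ^ 2 := by
      rw [← Complex.normSq_eq_norm_sq, ← Complex.normSq_eq_norm_sq, ← Complex.normSq_eq_norm_sq,
        Complex.normSq_apply, Complex.normSq_apply, Complex.normSq_apply]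
      simp only [Complex.sub_re, Complex.sub_im, Complex.mul_re, Complex.mul_im, Complex.conj_re,
        Complex.conj_im, Complex.one_re, Complex.one_im]
      ring
    have h4 : ‖(D : ℂ) * v - c‖ ^ 2 = D ^ 2 * ‖v‖ ^ 2 - 2 * D * (c.re * v.re + c.im * v.im) +
        ‖c‖ ^ 2 := by
      rw [← Complex.normSq_eq_norm_sq, ← Complex.normSq_eq_norm_sq, ← Complex.normSq_eq_norm_sq,
        Complex.normSq_apply, Complex.normSq_apply, Complex.normSq_apply]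
      simp only [Complex.sub_re, Complex.sub_im, Complex.mul_re, Complex.mul_im, Complex.ofReal_re,
        Complex.ofReal_im]
      ring
    have h5 : ‖v‖ ^ 2 * s ^ 2 = 1 - 2 * (c.re * v.re + c.im * v.im) + ‖c‖ ^ 2 * ‖v‖ ^ 2 := by
      rw [← h3, ← h1]
      ring
    have h6 : D ^ 2 * t ^ 2 = D ^ 2 * ‖v‖ ^ 2 - 2 * D * (c.re * v.re + c.im * v.im) +
        ‖c‖ ^ 2 := by
      rw [← h4, ← h2]
      ring
    have h7 : ‖c‖ ^ 2 = D + ρ ^ 2 := by linarith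
    rw [h7] at h5 h6
    have h8 : D * (t ^ 2 - (ρ / D) ^ 2) * D = D ^ 2 * t ^ 2 - ρ ^ 2 := by
      field_simp
    have h9 : ‖v‖ ^ 2 * (s ^ 2 - ρ ^ 2) * D = D * (t ^ 2 - (ρ / D) ^ 2) * D := by
      rw [h8, h6]
      have : ‖v‖ ^ 2 * (s ^ 2 - ρ ^ 2) = ‖v‖ ^ 2 * s ^ 2 - ‖v‖ ^ 2 * ρ ^ 2 := by ring
      rw [this, h5]
      ring
    exact mul_right_cancel₀ hD.ne' h9
  rw [← hs] at hw ⊢
  rw [← ht] at hvC ⊢
  have h10 : D * (ρ / D - t) * (ρ / D + t) = ‖v‖ ^ 2 * (ρ - s) * (ρ + s) := by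
    have : D * (ρ / D - t) * (ρ / D + t) = -(D * (t ^ 2 - (ρ / D) ^ 2)) := by ring
    rw [this, ← key]
    ring
  have h11 : 0 < ρ / D - t := by linarith
  have h12 : 0 < ρ - s := by linarith
  have h13 : D * (ρ / D - t) * (ρ / D) ≤ D * (ρ / D - t) * (ρ / D + t) :=
    mul_le_mul_of_nonneg_left (by linarith) (by positivity)
  have h14 : D * (ρ / D - t) * (ρ / D) = (ρ / D - t) * ρ := by
    field_simp
  have h15 : ‖v‖ ^ 2 * (ρ - s) * (ρ + s) ≤ 1 * (ρ - s) * (2 * ρ) := by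
    have h16 : ‖v‖ ^ 2 ≤ 1 := by nlinarith
    have h17 : ‖v‖ ^ 2 * (ρ - s) ≤ 1 * (ρ - s) := mul_le_mul_of_nonneg_right h16 h12.le
    exact mul_le_mul h17 (by linarith) (by linarith) (by linarith)
  have h18 : (ρ / D - t) * ρ ≤ (ρ - s) * 2 * ρ := by
    calc (ρ / D - t) * ρ = D * (ρ / D - t) * (ρ / D) := h14.symm
      _ ≤ D * (ρ / D - t) * (ρ / D + t) := h13
      _ = ‖v‖ ^ 2 * (ρ - s) * (ρ + s) := h10
      _ ≤ 1 * (ρ - s) * (2 * ρ) := h15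
      _ = (ρ - s) * 2 * ρ := by ring
  have h19 := le_of_mul_le_mul_right h18 hρ
  linarith

/-- a branch with growth exponent less than one at a boundary point of a disc extends -/
theorem finE (hSTART : U_START) (hSTEP : U_STEP) (hCONN : U_CONN) (hREL : U_REL)
    (hREFL : U_REFL) (hDISC : U_DISC) (hLOC : U_LOC) (hBOOT : U_BOOT) (φ : ℂ → ℂ)
    (r lam c0 : ℝ) (u : ℂ → ℝ)
    (G : ℂ → ℂ) (hr : 1 < r) (hφ : DifferentiableOn ℂ φ (ball 0 r)) (hinj : InjOn φ (ball 0 r))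
    (hlam : 0 < lam) (hc : c0 ≠ 0) (hS : Sol (φ '' ball 0 1) lam c0 u G) (z : ℂ) (g : ℂ → ℂ)
    (h : Branch φ r z g) (c : ℂ) (ρ : ℝ) (hρ : 0 < ρ) (hB : ∀ w ∈ closedBall c ρ, 1 < ‖w‖)
    (hg : DifferentiableOn ℂ g (ball c ρ)) (hz : z ∈ ball c ρ)
    (w1 : ℂ) (hw1 : w1 ∈ sphere c ρ) (K α δ : ℝ) (hα : α < 1) (hδ : 0 < δ)
    (hgM : ∀ w ∈ ball c ρ, ‖w - w1‖ < δ → ‖g w‖ ≤ K * (ρ - ‖w - c‖) ^ (-α)) :
    ∃ (ε : ℝ) (E : ℂ → ℂ), 0 < ε ∧ DifferentiableOn ℂ E (ball w1 ε) ∧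
      ∀ w ∈ ball w1 ε ∩ ball c ρ, E w = g w := by
  -- reduce to `0 ≤ α`
  obtain ⟨K1, β, hβ0, hβ1, hK1, hgβ⟩ : ∃ K1 β : ℝ, 0 ≤ β ∧ β < 1 ∧ 0 ≤ K1 ∧
      ∀ w ∈ ball c ρ, ‖w - w1‖ < δ → ‖g w‖ ≤ K1 * (ρ - ‖w - c‖) ^ (-β) := by
    rcases le_total 0 α with h0 | h0
    · refine ⟨|K|, α, h0, hα, abs_nonneg K, fun w hw hwd => (hgM w hw hwd).trans ?_⟩
      rw [mem_ball_iff_norm] at hw
      exact mul_le_mul_of_nonneg_right (le_abs_self K) (Real.rpow_nonneg (by linarith) _)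
    · refine ⟨|K| * ρ ^ (-α), 0, le_rfl, one_pos, by positivity, fun w hw hwd => ?_⟩
      rw [neg_zero, Real.rpow_zero, mul_one]
      have h5 := hgM w hw hwd
      rw [mem_ball_iff_norm] at hw
      have h6 : (ρ - ‖w - c‖) ^ (-α) ≤ ρ ^ (-α) :=
        Real.rpow_le_rpow (by linarith) (by linarith [norm_nonneg (w - c)]) (by linarith)
      have h7 : 0 ≤ (ρ - ‖w - c‖) ^ (-α) := Real.rpow_nonneg (by linarith) _
      calc ‖g w‖ ≤ K * (ρ - ‖w - c‖) ^ (-α) := h5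
        _ ≤ |K| * (ρ - ‖w - c‖) ^ (-α) := mul_le_mul_of_nonneg_right (le_abs_self K) h7
        _ ≤ |K| * ρ ^ (-α) := mul_le_mul_of_nonneg_left h6 (abs_nonneg K)
  have ha : 0 < lam / 4 := by positivity
  have hφ1 : DifferentiableOn ℂ φ (ball 0 1) := hφ.mono (ball_subset_ball hr.le)
  obtain ⟨hz1, hV, -⟩ := branch_inv hSTART hSTEP hCONN hREL hREFL φ r lam c0 u G hr hφ hinj hlam hc
    hS z g h
  have hz0 : z ≠ 0 := by
    rintro rfl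
    rw [norm_zero] at hz1
    linarith
  have hcρ := closed_norm c ρ hρ hB
  have hD : 0 < ‖c‖ ^ 2 - ρ ^ 2 := by nlinarith [norm_nonneg c]
  have hw1n : 1 < ‖w1‖ := hB w1 (sphere_subset_closedBall hw1)
  have hw10 : w1 ≠ 0 := by
    rintro rfl
    rw [norm_zero] at hw1n
    linarith
  have hBb : ∀ w ∈ ball c ρ, 1 < ‖w‖ := fun w hw => hB w (ball_subset_closedBall hw)
  obtain ⟨hVo, hVs, -, hVd⟩ := hREFL.1 (ball c ρ) g isOpen_ball hBb hg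
  have hDD := hDISC c ρ hρ hcρ.le
  obtain ⟨D, hDd⟩ : ∃ D : ℝ, D = ‖c‖ ^ 2 - ρ ^ 2 := ⟨_, rfl⟩
  have hw1s := sphere_refl c w1 ρ hρ hD hw10 hw1
  rw [← hDd] at hDD hD hw1s
  have hR0 : 0 < ρ / D := by positivity
  have hclosed : closedBall (((1 / D : ℝ) : ℂ) * c) (ρ / D) ⊆ ball 0 1 := by
    intro v hv
    rw [mem_closedBall_iff_norm] at hv
    rw [mem_ball_zero_iff]
    have h1 : ‖v‖ ≤ ‖v - ((1 / D : ℝ) : ℂ) * c‖ + ‖((1 / D : ℝ) : ℂ) * c‖ := by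
      have := norm_add_le (v - ((1 / D : ℝ) : ℂ) * c) (((1 / D : ℝ) : ℂ) * c)
      rwa [sub_add_cancel] at this
    have h2 : ‖((1 / D : ℝ) : ℂ) * c‖ = ‖c‖ / D := by
      rw [norm_mul, Complex.norm_real, Real.norm_of_nonneg (by positivity)]
      ring
    have h3 : ‖c‖ / D + ρ / D = 1 / (‖c‖ - ρ) := by
      rw [hDd]
      have h4 : ‖c‖ - ρ ≠ 0 := by linarith
      have h5 : ‖c‖ ^ 2 - ρ ^ 2 = (‖c‖ - ρ) * (‖c‖ + ρ) := by ring
      have h6 : ‖c‖ + ρ ≠ 0 := by linarith [norm_nonneg c]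
      rw [h5]
      field_simp
    have h4 : 1 / (‖c‖ - ρ) < 1 := by
      rw [div_lt_one (by linarith)]
      exact hcρ
    linarith
  have hinv : ∀ x : ℂ, 1 / conj (1 / conj x) = x := fun x => by
    rw [map_div₀, map_one, Complex.conj_conj, one_div_one_div]
  have hp : 1 / conj z ∈ ball (((1 / D : ℝ) : ℂ) * c) (ρ / D) := by
    rw [← hDD]
    refine ⟨div_ne_zero one_ne_zero ((map_ne_zero _).2 hz0), ?_⟩
    rw [hinv]
    exact hz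
  obtain ⟨δ1, hδ1, -, hδ1m⟩ := hREFL.2.2.2.1 w1 hw1n δ hδ
  obtain ⟨δ', M, hδ', hM⟩ := hBOOT hSTEP t_KAP t_SEG t_PAR φ (Rf g) (lam / 4) (ρ / D) β
    (K1 * 2 ^ β) δ1 (((1 / D : ℝ) : ℂ) * c) (1 / conj z) (1 / conj w1) ha hR0 hβ0 hβ1 hδ1 hφ1
    hclosed (by rw [← hDD]; exact hVd) (by
      intro v hv hvP
      have hv' := hv
      rw [← hDD] at hv'
      have h1 := (hδ1m v (mem_ball_iff_norm.2 hvP)).2
      rw [mem_ball_iff_norm] at h1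
      have h2 := hgβ _ hv'.2 h1
      have h3 : ‖v‖ < 1 := mem_ball_zero_iff.1 (hVs hv')
      have h4 := hv'.2
      rw [mem_ball_iff_norm] at h4 hv
      have h5 := refl_dist c v ρ D hρ hDd hD hv'.1 h3 h4 hv
      unfold Rf
      rw [RCLike.norm_conj]
      refine h2.trans ?_
      rw [mul_assoc]
      refine mul_le_mul_of_nonneg_left ?_ hK1
      have h6 : 0 < ρ / D - ‖v - ((1 / D : ℝ) : ℂ) * c‖ := by linarith
      calc (ρ - ‖1 / conj v - c‖) ^ (-β)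
          ≤ ((ρ / D - ‖v - ((1 / D : ℝ) : ℂ) * c‖) / 2) ^ (-β) :=
            Real.rpow_le_rpow_of_nonpos (by linarith) h5 (by linarith)
        _ = 2 ^ β * (ρ / D - ‖v - ((1 / D : ℝ) : ℂ) * c‖) ^ (-β) := by
            rw [Real.div_rpow h6.le (by norm_num), Real.rpow_neg (by norm_num : (0 : ℝ) ≤ 2),
              div_inv_eq_mul, mul_comm]) hp (hV 0) hw1s
  obtain ⟨ε, hε, hεm⟩ := hREFL.2.2.2.2 w1 hw1n δ' hδ'
  refine finD' hSTART hSTEP hCONN hREL hREFL hDISC hLOC φ r lam c0 u G hr hφ hinj hlam hc hS z g h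
    c ρ hρ hB hg hz w1 hw1 M ε hε ?_
  intro w hw hwε
  obtain ⟨hw0, hwP⟩ := hεm w (mem_ball_iff_norm.2 hwε)
  have h1 : 1 / conj w ∈ ball (((1 / D : ℝ) : ℂ) * c) (ρ / D) := by
    rw [← hDD]
    refine ⟨div_ne_zero one_ne_zero ((map_ne_zero _).2 hw0), ?_⟩
    rw [hinv]
    exact hw
  have h2 := hM _ h1 (mem_ball_iff_norm.1 hwP)
  unfold Rf at h2
  rw [RCLike.norm_conj, hinv] at h2
  exact h2

end Pool.Agent.Y245.UC
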