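import Pool.Agent.Y245.UC.Crit
import Pool.Agent.Y245.UC.MainE

/-!
Project UC: growth of order one with a small constant at a boundary point of a disc.
-/

set_option autoImplicit false

open Complex MeasureTheory Metric Set Filter Topology ComplexConjugate
open Pool.Agent.TH298.Sch (Sol)
open Pool.Agent.Y245.SC
open Pool.Agent.Y251.SF (S_KAP2 S_GRON)

namespace Pool.Agent.Y245.UC

/-- distances to the circle under reflection -/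
theorem refl_key (c v : ℂ) (ρ D : ℝ) (hDd : D = ‖c‖ ^ 2 - ρ ^ 2) (hD : 0 < D)
    (hv0 : v ≠ 0) :
    D * (ρ / D - ‖v - ((1 / D : ℝ) : ℂ) * c‖) * (ρ / D + ‖v - ((1 / D : ℝ) : ℂ) * c‖) =
      ‖v‖ ^ 2 * (ρ - ‖1 / conj v - c‖) * (ρ + ‖1 / conj v - c‖) := by
  have hconj : conj v ≠ 0 := (map_ne_zero _).2 hv0
  have hn : 0 < ‖v‖ := norm_pos_iff.2 hv0
  obtain ⟨s, hs⟩ : ∃ s : ℝ, s = ‖1 / conj v - c‖ := ⟨_, rfl⟩
  obtain ⟨t, ht⟩ : ∃ t : ℝ, t = ‖v - ((1 / D : ℝ) : ℂ) * c‖ := ⟨_, rfl⟩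
  have hs0 : 0 ≤ s := by rw [hs]; exact norm_nonneg _
  have ht0 : 0 ≤ t := by rw [ht]; exact norm_nonneg _
  have key : ‖v‖ ^ 2 * (s ^ 2 - ρ ^ 2) = D * (t ^ 2 - (ρ / D) ^ 2) := by
    have h1 : ‖v‖ * s = ‖1 - c * conj v‖ := by
      have : 1 / conj v - c = (1 - c * conj v) / conj v := by
        field_simp
      rw [hs, this, norm_div, RCLike.norm_conj, mul_div_cancel₀ _ hn.ne']
    have h2 : D * t = ‖(D : ℂ) * v - c‖ := by
      have hDc : ((D : ℝ) : ℂ) ≠ 0 := by exact_mod_cast hD.ne'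
      have : (D : ℂ) * v - c = (D : ℂ) * (v - ((1 / D : ℝ) : ℂ) * c) := by
        push_cast
        field_simp
      rw [this, norm_mul, Complex.norm_real, Real.norm_of_nonneg hD.le, ht]
    have h3 : ‖1 - c * conj v‖ ^ 2 = 1 - 2 * (c.re * v.re + c.im * v.im) + ‖c‖ ^ 2 * ‖v‖ ^ 2 := by
      rw [← Complex.normSq_eq_norm_sq, ← Complex.normSq_eq_norm_sq, ← Complex.normSq_eq_norm_sq,
        Complex.normSq_apply, Complex.normSq_apply, Complex.normSq_apply]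
      simp only [Complex.sub_re, Complex.sub_im, Complex.mul_re, Complex.mul_im, Complex.conj_re,
        Complex.conj_im, Complex.one_re, Complex.one_im]
      ring
    have h4 : ‖(D : ℂ) * v - c‖ ^ 2 = D ^ 2 * ‖v‖ ^ 2 - 2 * D * (c.re * v.re + c.im * v.im) +
        ‖c‖ ^ 2 := by
      rw [← Complex.normSq_eq_norm_sq, ← Complex.normSq_eq_norm_sq, ← Complex.normSq_eq_norm_sq,
        Complex.normSq_apply, Complex.normSq_apply, Complex.normSq_apply]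
      simp only [Complex.sub_re, Complex.sub_im, Complex.mul_re, Complex.mul_im, Complex.ofReal_re,
        Complex.ofReal_im]
      ring
    have h5 : ‖v‖ ^ 2 * s ^ 2 = 1 - 2 * (c.re * v.re + c.im * v.im) + ‖c‖ ^ 2 * ‖v‖ ^ 2 := by
      rw [← h3, ← h1]
      ring
    have h6 : D ^ 2 * t ^ 2 = D ^ 2 * ‖v‖ ^ 2 - 2 * D * (c.re * v.re + c.im * v.im) +
        ‖c‖ ^ 2 := by
      rw [← h4, ← h2]
      ring
    have h7 : ‖c‖ ^ 2 = D + ρ ^ 2 := by linarith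
    rw [h7] at h5 h6
    have h8 : D * (t ^ 2 - (ρ / D) ^ 2) * D = D ^ 2 * t ^ 2 - ρ ^ 2 := by
      field_simp
    have h9 : ‖v‖ ^ 2 * (s ^ 2 - ρ ^ 2) * D = D * (t ^ 2 - (ρ / D) ^ 2) * D := by
      rw [h8, h6]
      have : ‖v‖ ^ 2 * (s ^ 2 - ρ ^ 2) = ‖v‖ ^ 2 * s ^ 2 - ‖v‖ ^ 2 * ρ ^ 2 := by ring
      rw [this, h5]
      ring
    exact mul_right_cancel₀ hD.ne' h9
  rw [← hs, ← ht]
  have : D * (ρ / D - t) * (ρ / D + t) = -(D * (t ^ 2 - (ρ / D) ^ 2)) := by ring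
  rw [this, ← key]
  ring

/-- the distances near a boundary point -/
theorem refl_near (c w1 : ℂ) (ρ D η η' : ℝ) (hρ : 0 < ρ) (hDd : D = ‖c‖ ^ 2 - ρ ^ 2)
    (hD : 0 < D) (hw10 : w1 ≠ 0) (hw1 : w1 ∈ sphere c ρ)
    (hw1s : 1 / conj w1 ∈ sphere (((1 / D : ℝ) : ℂ) * c) (ρ / D))
    (hη : η / ‖w1‖ ^ 2 < η') :
    ∃ δ : ℝ, 0 < δ ∧ ∀ (v : ℂ) (x : ℝ), ‖v - 1 / conj w1‖ < δ → v ≠ 0 → 0 ≤ x →
      (ρ - ‖1 / conj v - c‖) * x ≤ η → ‖v - ((1 / D : ℝ) : ℂ) * c‖ ≤ ρ / D →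
      (ρ / D - ‖v - ((1 / D : ℝ) : ℂ) * c‖) * x ≤ η' := by
  have hcw : conj w1 ≠ 0 := (map_ne_zero _).2 hw10
  have hP0 : 1 / conj w1 ≠ 0 := div_ne_zero one_ne_zero hcw
  have hn : 0 < ‖w1‖ := norm_pos_iff.2 hw10
  rw [mem_sphere_iff_norm] at hw1 hw1s
  have hcont : ContinuousAt (fun v : ℂ => ‖v‖ ^ 2 * (ρ + ‖1 / conj v - c‖) /
      (ρ + D * ‖v - ((1 / D : ℝ) : ℂ) * c‖) * η) (1 / conj w1) := by
    have h1 : ContinuousAt (fun v : ℂ => 1 / conj v) (1 / conj w1) :=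
      continuousAt_const.div Complex.continuous_conj.continuousAt ((map_ne_zero _).2 hP0)
    have h2 : ContinuousAt (fun v : ℂ => ‖v‖ ^ 2 * (ρ + ‖1 / conj v - c‖)) (1 / conj w1) :=
      (continuous_norm.continuousAt.pow 2).mul
        (continuousAt_const.add (h1.sub continuousAt_const).norm)
    have h3 : ContinuousAt (fun v : ℂ => ρ + D * ‖v - ((1 / D : ℝ) : ℂ) * c‖) (1 / conj w1) := by
      fun_prop
    have h4 : ρ + D * ‖1 / conj w1 - ((1 / D : ℝ) : ℂ) * c‖ ≠ 0 := by positivity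
    exact (h2.div h3 h4).mul continuousAt_const
  have hval : ‖1 / conj w1‖ ^ 2 * (ρ + ‖1 / conj (1 / conj w1) - c‖) /
      (ρ + D * ‖1 / conj w1 - ((1 / D : ℝ) : ℂ) * c‖) * η < η' := by
    rw [hw1s]
    have e1 : 1 / conj (1 / conj w1) = w1 := by
      rw [map_div₀, map_one, Complex.conj_conj, one_div_one_div]
    rw [e1, hw1, norm_div, norm_one, RCLike.norm_conj, mul_div_cancel₀ _ hD.ne']
    have e2 : (1 / ‖w1‖) ^ 2 * (ρ + ρ) / (ρ + ρ) * η = η / ‖w1‖ ^ 2 := by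
      field_simp
    rw [e2]
    exact hη
  obtain ⟨δ, hδ, h⟩ := Metric.eventually_nhds_iff.mp
    (hcont.eventually_lt continuousAt_const hval)
  refine ⟨δ, hδ, fun v x hv hv0 hx hle hvC => ?_⟩
  have h1 := h (show dist v (1 / conj w1) < δ by rw [dist_eq_norm]; exact hv)
  have h2 := refl_key c v ρ D hDd hD hv0
  obtain ⟨s, hs⟩ : ∃ s : ℝ, s = ‖1 / conj v - c‖ := ⟨_, rfl⟩
  obtain ⟨t, ht⟩ : ∃ t : ℝ, t = ‖v - ((1 / D : ℝ) : ℂ) * c‖ := ⟨_, rfl⟩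
  have hs0 : 0 ≤ s := by rw [hs]; exact norm_nonneg _
  have ht0 : 0 ≤ t := by rw [ht]; exact norm_nonneg _
  simp only [← hs, ← ht] at h1 h2 hle hvC ⊢
  have h3 : 0 < ρ + D * t := by positivity
  have h4 : (ρ / D - t) * (ρ + D * t) = ‖v‖ ^ 2 * (ρ - s) * (ρ + s) := by
    rw [← h2]
    field_simp
  have h5 : (ρ / D - t) * x = ‖v‖ ^ 2 * (ρ + s) / (ρ + D * t) * ((ρ - s) * x) := by
    have : ρ / D - t = ‖v‖ ^ 2 * (ρ - s) * (ρ + s) / (ρ + D * t) := by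
      rw [← h4, mul_div_cancel_right₀ _ h3.ne']
    rw [this]
    ring
  rw [h5]
  have h6 : 0 ≤ ‖v‖ ^ 2 * (ρ + s) / (ρ + D * t) := by positivity
  exact (mul_le_mul_of_nonneg_left hle h6).trans h1.le

/-- a branch of order one with a small constant at a boundary point of a disc extends -/
theorem finF (hSTART : U_START) (hSTEP : U_STEP) (hCONN : U_CONN) (hREL : U_REL)
    (hREFL : U_REFL) (hDISC : U_DISC) (hLOC : U_LOC) (hK2 : S_KAP2) (hGr : S_GRON) (φ : ℂ → ℂ)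
    (r lam c0 : ℝ) (u : ℂ → ℝ)
    (G : ℂ → ℂ) (hr : 1 < r) (hφ : DifferentiableOn ℂ φ (ball 0 r)) (hinj : InjOn φ (ball 0 r))
    (hlam : 0 < lam) (hc : c0 ≠ 0) (hS : Sol (φ '' ball 0 1) lam c0 u G) (z : ℂ) (g : ℂ → ℂ)
    (h : Branch φ r z g) (c : ℂ) (ρ : ℝ) (hρ : 0 < ρ) (hB : ∀ w ∈ closedBall c ρ, 1 < ‖w‖)
    (hg : DifferentiableOn ℂ g (ball c ρ)) (hz : z ∈ ball c ρ)
    (w1 : ℂ) (hw1 : w1 ∈ sphere c ρ) (η0 δ : ℝ) (hδ : 0 < δ)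
    (hsm0 : lam * ‖deriv φ (1 / conj w1)‖ * η0 < 3 * ‖w1‖ ^ 2)
    (hgM0 : ∀ w ∈ ball c ρ, ‖w - w1‖ < δ → (ρ - ‖w - c‖) * ‖g w‖ ≤ η0) :
    ∃ (ε : ℝ) (E : ℂ → ℂ), 0 < ε ∧ DifferentiableOn ℂ E (ball w1 ε) ∧
      ∀ w ∈ ball w1 ε ∩ ball c ρ, E w = g w := by
  have hw1n : 1 < ‖w1‖ := hB w1 (sphere_subset_closedBall hw1)
  have hw1p : 0 < ‖w1‖ ^ 2 := by positivity
  -- reduce to `0 ≤ η`
  obtain ⟨η, hη0, hsm, hgM⟩ : ∃ η : ℝ, 0 ≤ η ∧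
      lam * ‖deriv φ (1 / conj w1)‖ * η < 3 * ‖w1‖ ^ 2 ∧
      ∀ w ∈ ball c ρ, ‖w - w1‖ < δ → (ρ - ‖w - c‖) * ‖g w‖ ≤ η := by
    refine ⟨max η0 0, le_max_right _ _, ?_, fun w hw hwd => (hgM0 w hw hwd).trans
      (le_max_left _ _)⟩
    rcases le_total η0 0 with h0 | h0
    · rw [max_eq_right h0, mul_zero]
      positivity
    · rw [max_eq_left h0]
      exact hsm0
  obtain ⟨η', hη', hsm'⟩ : ∃ η' : ℝ, η / ‖w1‖ ^ 2 < η' ∧
      lam / 4 * ‖deriv φ (1 / conj w1)‖ * η' < 3 / 4 := by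
    have hcc : ContinuousAt (fun x : ℝ => lam / 4 * ‖deriv φ (1 / conj w1)‖ * x)
      (η / ‖w1‖ ^ 2) := by fun_prop
    have h1 : lam / 4 * ‖deriv φ (1 / conj w1)‖ * (η / ‖w1‖ ^ 2) < 3 / 4 := by
      have e1 : lam / 4 * ‖deriv φ (1 / conj w1)‖ * (η / ‖w1‖ ^ 2) =
          (lam * ‖deriv φ (1 / conj w1)‖ * η) / (4 * ‖w1‖ ^ 2) := by
        field_simp
      rw [e1, div_lt_iff₀ (by positivity)]
      linarith
    obtain ⟨e, he, h2⟩ := Metric.eventually_nhds_iff.mp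
      (hcc.eventually_lt continuousAt_const h1)
    refine ⟨η / ‖w1‖ ^ 2 + e / 2, by linarith, h2 ?_⟩
    rw [Real.dist_eq, add_sub_cancel_left, abs_of_pos (by positivity)]
    linarith
  have hη'0 : 0 ≤ η' := (by positivity : 0 ≤ η / ‖w1‖ ^ 2).trans hη'.le
  have ha : 0 < lam / 4 := by positivity
  have hφ1 : DifferentiableOn ℂ φ (ball 0 1) := hφ.mono (ball_subset_ball hr.le)
  obtain ⟨hz1, hV, -⟩ := branch_inv hSTART hSTEP hCONN hREL hREFL φ r lam c0 u G hr hφ hinj hlam hc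
    hS z g h
  have hz0 : z ≠ 0 := by
    rintro rfl
    rw [norm_zero] at hz1
    linarith
  have hcρ := closed_norm c ρ hρ hB
  have hD : 0 < ‖c‖ ^ 2 - ρ ^ 2 := by nlinarith [norm_nonneg c]
  have hw10 : w1 ≠ 0 := by
    rintro rfl
    rw [norm_zero] at hw1n
    linarith
  have hBb : ∀ w ∈ ball c ρ, 1 < ‖w‖ := fun w hw => hB w (ball_subset_closedBall hw)
  obtain ⟨hVo, hVs, -, hVd⟩ := hREFL.1 (ball c ρ) g isOpen_ball hBb hg
  have hDD := hDISC c ρ hρ hcρ.le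
  obtain ⟨D, hDd⟩ : ∃ D : ℝ, D = ‖c‖ ^ 2 - ρ ^ 2 := ⟨_, rfl⟩
  have hw1s := sphere_refl c w1 ρ hρ hD hw10 hw1
  rw [← hDd] at hDD hD hw1s
  have hR0 : 0 < ρ / D := by positivity
  have hclosed : closedBall (((1 / D : ℝ) : ℂ) * c) (ρ / D) ⊆ ball 0 1 := by
    intro v hv
    rw [mem_closedBall_iff_norm] at hv
    rw [mem_ball_zero_iff]
    have h1 : ‖v‖ ≤ ‖v - ((1 / D : ℝ) : ℂ) * c‖ + ‖((1 / D : ℝ) : ℂ) * c‖ := by
      have := norm_add_le (v - ((1 / D : ℝ) : ℂ) * c) (((1 / D : ℝ) : ℂ) * c)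
      rwa [sub_add_cancel] at this
    have h2 : ‖((1 / D : ℝ) : ℂ) * c‖ = ‖c‖ / D := by
      rw [norm_mul, Complex.norm_real, Real.norm_of_nonneg (by positivity)]
      ring
    have h3 : ‖c‖ / D + ρ / D = 1 / (‖c‖ - ρ) := by
      rw [hDd]
      have h4 : ‖c‖ - ρ ≠ 0 := by linarith
      have h5 : ‖c‖ ^ 2 - ρ ^ 2 = (‖c‖ - ρ) * (‖c‖ + ρ) := by ring
      have h6 : ‖c‖ + ρ ≠ 0 := by linarith [norm_nonneg c]
      rw [h5]
      field_simp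
    have h4 : 1 / (‖c‖ - ρ) < 1 := by
      rw [div_lt_one (by linarith)]
      exact hcρ
    linarith
  have hinv : ∀ x : ℂ, 1 / conj (1 / conj x) = x := fun x => by
    rw [map_div₀, map_one, Complex.conj_conj, one_div_one_div]
  have hp : 1 / conj z ∈ ball (((1 / D : ℝ) : ℂ) * c) (ρ / D) := by
    rw [← hDD]
    refine ⟨div_ne_zero one_ne_zero ((map_ne_zero _).2 hz0), ?_⟩
    rw [hinv]
    exact hz
  obtain ⟨δ1, hδ1, -, hδ1m⟩ := hREFL.2.2.2.1 w1 hw1n δ hδ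
  obtain ⟨δ2, hδ2, hnear⟩ := refl_near c w1 ρ D η η' hρ hDd hD hw10 hw1 hw1s hη'
  obtain ⟨δ', M, hδ', hM⟩ := ucrit hSTEP hK2 t_KAP t_SEG t_PAR hGr φ (Rf g) (lam / 4) (ρ / D) η'
    (min δ1 δ2) (((1 / D : ℝ) : ℂ) * c) (1 / conj z) (1 / conj w1) ha hR0 hη'0
    (lt_min hδ1 hδ2) hφ1
    hclosed (by rw [← hDD]; exact hVd) hsm' (by
      intro v hv hvP
      have hv' := hv
      rw [← hDD] at hv'
      have h1 := (hδ1m v (mem_ball_iff_norm.2 (hvP.trans_le (min_le_left _ _)))).2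
      rw [mem_ball_iff_norm] at h1
      have h2 := hgM _ hv'.2 h1
      rw [mem_ball_iff_norm] at hv
      unfold Rf
      rw [RCLike.norm_conj]
      exact hnear v _ (hvP.trans_le (min_le_right _ _)) hv'.1 (norm_nonneg _) h2 hv.le) hp
      (hV 0) hw1s
  obtain ⟨ε, hε, hεm⟩ := hREFL.2.2.2.2 w1 hw1n δ' hδ'
  refine finD' hSTART hSTEP hCONN hREL hREFL hDISC hLOC φ r lam c0 u G hr hφ hinj hlam hc hS z g h
    c ρ hρ hB hg hz w1 hw1 M ε hε ?_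
  intro w hw hwε
  obtain ⟨hw0, hwP⟩ := hεm w (mem_ball_iff_norm.2 hwε)
  have h1 : 1 / conj w ∈ ball (((1 / D : ℝ) : ℂ) * c) (ρ / D) := by
    rw [← hDD]
    refine ⟨div_ne_zero one_ne_zero ((map_ne_zero _).2 hw0), ?_⟩
    rw [hinv]
    exact hw
  have h2 := hM _ h1 (mem_ball_iff_norm.1 hwP)
  unfold Rf at h2
  rw [RCLike.norm_conj, hinv] at h2
  exact h2

end Pool.Agent.Y245.UC
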