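import Pool.Agent.Y245.UC.MainF

/-!
Project UC: growth of a branch at infinity in a half-plane.
-/

set_option autoImplicit false

open Complex MeasureTheory Metric Set Filter Topology ComplexConjugate
open Pool.Agent.TH298.Sch (Sol)
open Pool.Agent.Y245.SC
open Pool.Agent.Y251.SF (S_KAP2 S_GRON)

namespace Pool.Agent.Y245.UC

/-- the reflected half-plane: the basic identity -/
theorem half_key (e v : ℂ) (k : ℝ) (he : ‖e‖ = 1) (hk : 0 < k) (hv0 : v ≠ 0) :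
    ‖v‖ ^ 2 * (((1 / conj v) * conj e).re - k) =
      k * ((1 / (2 * k) - ‖v - ((1 / (2 * k) : ℝ) : ℂ) * e‖) *
        (1 / (2 * k) + ‖v - ((1 / (2 * k) : ℝ) : ℂ) * e‖)) := by
  have hn : Complex.normSq v ≠ 0 := by
    rw [Ne, Complex.normSq_eq_zero]
    exact hv0
  have h1 : ‖v‖ ^ 2 = v.re ^ 2 + v.im ^ 2 := by
    rw [← Complex.normSq_eq_norm_sq, Complex.normSq_apply]
    ring
  have h2 : e.re ^ 2 + e.im ^ 2 = 1 := by
    have : ‖e‖ ^ 2 = e.re ^ 2 + e.im ^ 2 := by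
      rw [← Complex.normSq_eq_norm_sq, Complex.normSq_apply]
      ring
    rw [← this, he, one_pow]
  have h3 : ‖v - ((1 / (2 * k) : ℝ) : ℂ) * e‖ ^ 2 =
      (v.re - 1 / (2 * k) * e.re) ^ 2 + (v.im - 1 / (2 * k) * e.im) ^ 2 := by
    rw [← Complex.normSq_eq_norm_sq, Complex.normSq_apply, Complex.sub_re, Complex.sub_im,
      Complex.re_ofReal_mul, Complex.im_ofReal_mul]
    ring
  have h4 : ‖v‖ ^ 2 * ((1 / conj v) * conj e).re = v.re * e.re + v.im * e.im := by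
    have h5 : ((‖v‖ ^ 2 : ℝ) : ℂ) * ((1 / conj v) * conj e) = v * conj e := by
      have h6 : ((‖v‖ ^ 2 : ℝ) : ℂ) = v * conj v := by
        rw [Complex.mul_conj, Complex.normSq_eq_norm_sq]
      have h7 : conj v ≠ 0 := (map_ne_zero _).2 hv0
      rw [h6]
      field_simp
    have h8 := congrArg Complex.re h5
    rw [Complex.re_ofReal_mul] at h8
    rw [h8, Complex.mul_re, Complex.conj_re, Complex.conj_im]
    ring
  obtain ⟨t, ht⟩ : ∃ t : ℝ, t = ‖v - ((1 / (2 * k) : ℝ) : ℂ) * e‖ := ⟨_, rfl⟩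
  rw [← ht] at h3 ⊢
  have h9 : (1 / (2 * k) - t) * (1 / (2 * k) + t) = (1 / (2 * k)) ^ 2 - t ^ 2 := by ring
  rw [mul_sub, h4, h9, h3, h1]
  have h10 : (1 / (2 * k)) ^ 2 = (1 / (2 * k)) ^ 2 * (e.re ^ 2 + e.im ^ 2) := by
    rw [h2, mul_one]
  rw [h10]
  field_simp
  ring

/-- the reflected half-plane is a disc -/
theorem half_eq (e : ℂ) (k : ℝ) (he : ‖e‖ = 1) (hk : 0 < k) :
    {v : ℂ | v ≠ 0 ∧ 1 / conj v ∈ {w : ℂ | k < (w * conj e).re}} =
      ball (((1 / (2 * k) : ℝ) : ℂ) * e) (1 / (2 * k)) := by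
  have hc : ‖((1 / (2 * k) : ℝ) : ℂ) * e‖ = 1 / (2 * k) := by
    rw [norm_mul, Complex.norm_real, Real.norm_of_nonneg (by positivity), he, mul_one]
  ext v
  rw [mem_ball_iff_norm]
  constructor
  · rintro ⟨hv0, hv⟩
    have h1 := half_key e v k he hk hv0
    have h2 : 0 < ‖v‖ ^ 2 := by
      have := norm_pos_iff.2 hv0
      positivity
    have h3 : 0 < ‖v‖ ^ 2 * (((1 / conj v) * conj e).re - k) := mul_pos h2 (sub_pos.2 hv)
    rw [h1] at h3
    have h4 : 0 < 1 / (2 * k) + ‖v - ((1 / (2 * k) : ℝ) : ℂ) * e‖ := by positivity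
    by_contra hcon
    push Not at hcon
    have h5 : (1 / (2 * k) - ‖v - ((1 / (2 * k) : ℝ) : ℂ) * e‖) *
        (1 / (2 * k) + ‖v - ((1 / (2 * k) : ℝ) : ℂ) * e‖) ≤ 0 :=
      mul_nonpos_of_nonpos_of_nonneg (by linarith) h4.le
    nlinarith
  · intro hv
    have hv0 : v ≠ 0 := by
      rintro rfl
      rw [zero_sub, norm_neg, hc] at hv
      exact lt_irrefl _ hv
    refine ⟨hv0, ?_⟩
    have h1 := half_key e v k he hk hv0
    have h2 : 0 < ‖v‖ ^ 2 := by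
      have := norm_pos_iff.2 hv0
      positivity
    have h4 : 0 < 1 / (2 * k) + ‖v - ((1 / (2 * k) : ℝ) : ℂ) * e‖ := by positivity
    have h5 : 0 < ‖v‖ ^ 2 * (((1 / conj v) * conj e).re - k) := by
      rw [h1]
      exact mul_pos hk (mul_pos (by linarith) h4)
    have h6 := (mul_pos_iff_of_pos_left h2).1 h5
    show k < ((1 / conj v) * conj e).re
    linarith

/-- a branch of order one with a small constant at infinity in a half-plane extends -/
theorem finG (hSTART : U_START) (hSTEP : U_STEP) (hCONN : U_CONN) (hREL : U_REL)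
    (hREFL : U_REFL) (hLOC : U_LOC) (hK2 : S_KAP2) (hGr : S_GRON) (φ : ℂ → ℂ)
    (r lam c0 : ℝ) (u : ℂ → ℝ)
    (G : ℂ → ℂ) (hr : 1 < r) (hφ : DifferentiableOn ℂ φ (ball 0 r)) (hinj : InjOn φ (ball 0 r))
    (hlam : 0 < lam) (hc : c0 ≠ 0) (hS : Sol (φ '' ball 0 1) lam c0 u G) (z : ℂ) (g : ℂ → ℂ)
    (h : Branch φ r z g) (e : ℂ) (k : ℝ) (he : ‖e‖ = 1) (hk : 1 < k)
    (hg : DifferentiableOn ℂ g {w : ℂ | k < (w * conj e).re}) (hz : k < (z * conj e).re)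
    (η0 K : ℝ) (hsm0 : lam * ‖deriv φ 0‖ * η0 < 3)
    (hgM0 : ∀ w : ℂ, k < (w * conj e).re → K < ‖w‖ →
      ((w * conj e).re - k) * ‖g w‖ ≤ η0 * ‖w‖ ^ 2) :
    ∃ (R : ℝ) (E : ℂ → ℂ) (L : ℂ), DifferentiableOn ℂ E {w : ℂ | R < ‖w‖} ∧
      Tendsto E (Bornology.cobounded ℂ) (𝓝 L) ∧
      ∀ w : ℂ, R < ‖w‖ → k < (w * conj e).re → E w = g w := by
  have hk0 : 0 < k := by linarith
  have ha : 0 < lam / 4 := by positivity
  have hφ1 : DifferentiableOn ℂ φ (ball 0 1) := hφ.mono (ball_subset_ball hr.le)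
  -- reduce to `0 ≤ η`
  obtain ⟨η, hη0, hsm, hgM⟩ : ∃ η : ℝ, 0 ≤ η ∧ lam * ‖deriv φ 0‖ * η < 3 ∧
      ∀ w : ℂ, k < (w * conj e).re → K < ‖w‖ →
        ((w * conj e).re - k) * ‖g w‖ ≤ η * ‖w‖ ^ 2 := by
    refine ⟨max η0 0, le_max_right _ _, ?_, fun w hw hwd => (hgM0 w hw hwd).trans
      (mul_le_mul_of_nonneg_right (le_max_left _ _) (by positivity))⟩
    rcases le_total η0 0 with h0 | h0
    · rw [max_eq_right h0, mul_zero]
      norm_num
    · rw [max_eq_left h0]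
      exact hsm0
  obtain ⟨η', hη', hsm'⟩ : ∃ η' : ℝ, η < η' ∧ lam / 4 * ‖deriv φ 0‖ * η' < 3 / 4 := by
    have hcc : ContinuousAt (fun x : ℝ => lam / 4 * ‖deriv φ 0‖ * x) η := by fun_prop
    have h1 : lam / 4 * ‖deriv φ 0‖ * η < 3 / 4 := by linarith
    obtain ⟨d, hd, h2⟩ := Metric.eventually_nhds_iff.mp
      (hcc.eventually_lt continuousAt_const h1)
    refine ⟨η + d / 2, by linarith, h2 ?_⟩
    rw [Real.dist_eq, add_sub_cancel_left, abs_of_pos (by positivity)]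
    linarith
  have hη'0 : 0 ≤ η' := hη0.trans hη'.le
  obtain ⟨hz1, hV, -⟩ := branch_inv hSTART hSTEP hCONN hREL hREFL φ r lam c0 u G hr hφ hinj hlam hc
    hS z g h
  have hz0 : z ≠ 0 := by
    rintro rfl
    rw [norm_zero] at hz1
    linarith
  have hBb : ∀ w ∈ {w : ℂ | k < (w * conj e).re}, 1 < ‖w‖ := by
    intro w hw
    have h1 : (w * conj e).re ≤ ‖w * conj e‖ := Complex.re_le_norm _
    rw [norm_mul, RCLike.norm_conj, he, mul_one] at h1
    have h2 : k < (w * conj e).re := hw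
    linarith
  have hBo : IsOpen {w : ℂ | k < (w * conj e).re} :=
    isOpen_lt continuous_const (Complex.continuous_re.comp (continuous_id.mul continuous_const))
  obtain ⟨-, hVs, -, hVd⟩ := hREFL.1 _ g hBo hBb hg
  have hDD := half_eq e k he hk0
  obtain ⟨ρ, hρ⟩ : ∃ ρ : ℝ, ρ = 1 / (2 * k) := ⟨_, rfl⟩
  obtain ⟨C, hC⟩ : ∃ C : ℂ, C = ((1 / (2 * k) : ℝ) : ℂ) * e := ⟨_, rfl⟩
  have hρ0 : 0 < ρ := by rw [hρ]; positivity
  have hkρ : k * (2 * ρ) = 1 := by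
    rw [hρ]
    field_simp
  rw [← hC, ← hρ] at hDD
  have hCn : ‖C‖ = ρ := by
    rw [hC, hρ, norm_mul, Complex.norm_real, Real.norm_of_nonneg (by positivity), he, mul_one]
  have hclosed : closedBall C ρ ⊆ ball 0 1 := by
    intro v hv
    rw [mem_closedBall_iff_norm] at hv
    rw [mem_ball_zero_iff]
    have h1 : ‖v‖ ≤ ‖v - C‖ + ‖C‖ := by
      have := norm_add_le (v - C) C
      rwa [sub_add_cancel] at this
    rw [hCn] at h1
    nlinarith
  have hinv : ∀ x : ℂ, 1 / conj (1 / conj x) = x := fun x => by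
    rw [map_div₀, map_one, Complex.conj_conj, one_div_one_div]
  have hp : 1 / conj z ∈ ball C ρ := by
    rw [← hDD]
    refine ⟨div_ne_zero one_ne_zero ((map_ne_zero _).2 hz0), ?_⟩
    rw [hinv]
    exact hz
  have hPs : (0 : ℂ) ∈ sphere C ρ := by
    rw [mem_sphere_iff_norm, zero_sub, norm_neg, hCn]
  have hRd : DifferentiableOn ℂ (Rf g) (ball C ρ) := by rw [← hDD]; exact hVd
  -- the growth near zero
  obtain ⟨δ2, hδ2, hδ2m⟩ : ∃ δ2 : ℝ, 0 < δ2 ∧ ∀ x : ℝ, 0 ≤ x → x < δ2 →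
      0 < 1 - k * x ∧ η / (1 - k * x) ≤ η' := by
    have h1 : ContinuousAt (fun x : ℝ => 1 - k * x) 0 := by fun_prop
    have h2 : ContinuousAt (fun x : ℝ => η / (1 - k * x)) 0 :=
      continuousAt_const.div h1 (by simp)
    have h3 : ∀ᶠ x : ℝ in 𝓝 0, 0 < 1 - k * x := by
      refine continuousAt_const.eventually_lt h1 ?_
      simp
    have h4 : ∀ᶠ x : ℝ in 𝓝 0, η / (1 - k * x) < η' := by
      refine h2.eventually_lt continuousAt_const ?_
      simpa using hη'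
    obtain ⟨d, hd, h5⟩ := Metric.eventually_nhds_iff.mp (h3.and h4)
    refine ⟨d, hd, fun x hx0 hx => ?_⟩
    have h6 := h5 (show dist x 0 < d by rw [Real.dist_eq, sub_zero, abs_of_nonneg hx0]; exact hx)
    exact ⟨h6.1, h6.2.le⟩
  obtain ⟨δ1, hδ1, hδ1m⟩ : ∃ δ1 : ℝ, 0 < δ1 ∧ ∀ v : ℂ, v ≠ 0 → ‖v‖ < δ1 → K < ‖1 / conj v‖ := by
    refine ⟨1 / (|K| + 1), by positivity, fun v hv0 hv => ?_⟩
    rw [norm_div, norm_one, RCLike.norm_conj, lt_div_iff₀ (norm_pos_iff.2 hv0)]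
    rw [lt_div_iff₀ (by positivity)] at hv
    have h1 : K ≤ |K| := le_abs_self K
    have h2 := norm_pos_iff.2 hv0
    nlinarith
  obtain ⟨δ', M, hδ', hM⟩ := ucrit hSTEP hK2 t_KAP t_SEG t_PAR hGr φ (Rf g) (lam / 4) ρ η'
    (min δ1 δ2) C (1 / conj z) 0 ha hρ0 hη'0 (lt_min hδ1 hδ2) hφ1 hclosed hRd hsm' (by
      intro v hv hvP
      rw [sub_zero] at hvP
      have hv' := hv
      rw [← hDD] at hv'
      have hK' := hδ1m v hv'.1 (hvP.trans_le (min_le_left _ _))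
      obtain ⟨h1, h2⟩ := hδ2m ‖v‖ (norm_nonneg _) (hvP.trans_le (min_le_right _ _))
      have h3 := hgM _ hv'.2 hK'
      have h4 := half_key e v k he hk0 hv'.1
      rw [← hC, ← hρ] at h4
      rw [mem_ball_iff_norm] at hv
      have h5 : ρ - ‖v‖ ≤ ‖v - C‖ := by
        have := norm_sub_norm_le C v
        rw [hCn, norm_sub_rev] at this
        exact this
      have hvn : 0 < ‖v‖ := norm_pos_iff.2 hv'.1
      rw [norm_div, norm_one, RCLike.norm_conj] at h3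
      obtain ⟨x, hx⟩ : ∃ x : ℝ, x = ‖g (1 / conj v)‖ := ⟨_, rfl⟩
      have hx0 : 0 ≤ x := by rw [hx]; exact norm_nonneg _
      unfold Rf
      rw [RCLike.norm_conj]
      rw [← hx] at h3 ⊢
      obtain ⟨t, ht⟩ : ∃ t : ℝ, t = ‖v - C‖ := ⟨_, rfl⟩
      rw [← ht] at h4 h5 hv ⊢
      have h6 : k * ((ρ - t) * (ρ + t)) * x ≤ η := by
        rw [← h4]
        have h7 := mul_le_mul_of_nonneg_left h3 (sq_nonneg ‖v‖)
        have h8 : ‖v‖ ^ 2 * (η * (1 / ‖v‖) ^ 2) = η := by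
          field_simp
        rw [h8] at h7
        linarith
      have h9 : 1 - k * ‖v‖ ≤ k * (ρ + t) := by nlinarith
      have h10 : (1 - k * ‖v‖) * ((ρ - t) * x) ≤ η := by
        have h11 : 0 ≤ (ρ - t) * x := mul_nonneg (by linarith) hx0
        nlinarith
      have h12 : (ρ - t) * x ≤ η / (1 - k * ‖v‖) := by
        rw [le_div_iff₀ h1]
        linarith
      exact h12.trans h2) hp (hV 0) hPs
  -- a smaller disc
  obtain ⟨s, hs⟩ : ∃ s : ℝ, s = min ρ (δ' / 2) := ⟨_, rfl⟩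
  have hs0 : 0 < s := by rw [hs]; exact lt_min hρ0 (by positivity)
  have hsρ : s ≤ ρ := by rw [hs]; exact min_le_left _ _
  have hsδ : 2 * s ≤ δ' := by
    have : s ≤ δ' / 2 := by rw [hs]; exact min_le_right _ _
    linarith
  obtain ⟨C1, hC1⟩ : ∃ C1 : ℂ, C1 = (s : ℂ) * e := ⟨_, rfl⟩
  have hC1n : ‖C1‖ = s := by
    rw [hC1, norm_mul, Complex.norm_real, Real.norm_of_nonneg hs0.le, he, mul_one]
  have hCC : ‖C1 - C‖ = ρ - s := by
    have : C1 - C = ((s - ρ : ℝ) : ℂ) * e := by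
      rw [hC1, hC, ← hρ]
      push_cast
      ring
    rw [this, norm_mul, Complex.norm_real, Real.norm_eq_abs, he, mul_one,
      abs_of_nonpos (by linarith)]
    ring
  have hsub : ball C1 s ⊆ ball C ρ := by
    intro w hw
    rw [mem_ball_iff_norm] at hw ⊢
    have h1 : ‖w - C‖ ≤ ‖w - C1‖ + ‖C1 - C‖ := norm_sub_le_norm_sub_add_norm_sub _ _ _
    rw [hCC] at h1
    linarith
  have hsubc : closedBall C1 s ⊆ closedBall C ρ := by
    intro w hw
    rw [mem_closedBall_iff_norm] at hw ⊢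
    have h1 : ‖w - C‖ ≤ ‖w - C1‖ + ‖C1 - C‖ := norm_sub_le_norm_sub_add_norm_sub _ _ _
    rw [hCC] at h1
    linarith
  have hnear : ∀ w ∈ ball C1 s, ‖w - 0‖ < δ' := by
    intro w hw
    rw [mem_ball_iff_norm] at hw
    have h1 : ‖w - 0‖ ≤ ‖w - C1‖ + ‖C1 - 0‖ := norm_sub_le_norm_sub_add_norm_sub _ _ _
    rw [sub_zero C1, hC1n] at h1
    linarith
  have hC1b : C1 ∈ ball C1 s := mem_ball_self hs0
  have hVG1 : VG (lam / 4) φ 0 C1 (Rf g) :=
    (hCONN hSTEP t_KAP t_SEG t_PAR φ (lam / 4) 0 ha hφ1).1 (ball C ρ) (Rf g) (1 / conj z) C1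
      isOpen_ball (convex_ball C ρ).isPreconnected (ball_subset_closedBall.trans hclosed) hRd hp
      (hsub hC1b) (hV 0)
  have hP1 : (0 : ℂ) ∈ sphere C1 s := by
    rw [mem_sphere_iff_norm, zero_sub, norm_neg, hC1n]
  obtain ⟨δ, F', hδ, hF', hFF⟩ := hLOC hSTEP t_KAP t_SEG t_PAR Pool.Agent.Y381.SC.pic φ (Rf g)
    (lam / 4) s M C1 C1 0 ha hs0 hφ1 (hsubc.trans hclosed) (hRd.mono hsub)
    (fun v hv => hM v (hsub hv) (hnear v hv)) hC1b hVG1 hP1
  -- the identity theorem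
  have hopen : IsOpen (ball (0 : ℂ) δ ∩ ball C ρ) := isOpen_ball.inter isOpen_ball
  have hconv : IsPreconnected (ball (0 : ℂ) δ ∩ ball C ρ) :=
    ((convex_ball (0 : ℂ) δ).inter (convex_ball C ρ)).isPreconnected
  obtain ⟨q, hq1, hq2⟩ : ∃ q : ℂ, q ∈ ball (0 : ℂ) δ ∧ q ∈ ball C1 s := by
    have h1 : (0 : ℂ) ∈ closure (ball C1 s) := by
      rw [closure_ball _ hs0.ne']
      exact sphere_subset_closedBall hP1
    obtain ⟨q, hq⟩ := mem_closure_iff_nhds.1 h1 (ball (0 : ℂ) δ) (ball_mem_nhds 0 hδ)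
    exact ⟨q, hq.1, hq.2⟩
  have hEq : EqOn F' (Rf g) (ball (0 : ℂ) δ ∩ ball C ρ) := by
    refine AnalyticOnNhd.eqOn_of_preconnected_of_eventuallyEq
      ((hF'.mono inter_subset_left).analyticOnNhd hopen)
      ((hRd.mono inter_subset_right).analyticOnNhd hopen) hconv ⟨hq1, hsub hq2⟩ ?_
    filter_upwards [(isOpen_ball.inter isOpen_ball).mem_nhds ⟨hq1, hq2⟩] with w hw
    exact hFF w hw
  have hR : ∀ w : ℂ, 1 / δ < ‖w‖ → w ≠ 0 ∧ 1 / conj w ∈ ball (0 : ℂ) δ := by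
    intro w hw
    have hw0 : 0 < ‖w‖ := (by positivity : (0 : ℝ) < 1 / δ).trans hw
    refine ⟨norm_pos_iff.1 hw0, ?_⟩
    rw [mem_ball_zero_iff, norm_div, norm_one, RCLike.norm_conj, div_lt_iff₀ hw0]
    rw [div_lt_iff₀ hδ] at hw
    linarith
  refine ⟨1 / δ, Rf F', conj (F' 0), ?_, ?_, ?_⟩
  · intro w hw
    obtain ⟨hw0, hwP⟩ := hR w hw
    have h2 : DifferentiableAt ℂ (conj ∘ F' ∘ conj) (w⁻¹) := by
      rw [differentiableAt_conj_conj_iff]
      have : conj (w⁻¹) = 1 / conj w := by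
        rw [map_inv₀, one_div]
      rw [this]
      exact hF'.differentiableAt (isOpen_ball.mem_nhds hwP)
    have h3 : Rf F' = (conj ∘ F' ∘ conj) ∘ (fun v : ℂ => v⁻¹) := by
      funext v
      simp only [Rf, Function.comp_apply, map_inv₀, one_div]
    rw [h3]
    exact (h2.comp w (differentiableAt_inv hw0)).differentiableWithinAt
  · have h1 : Tendsto (fun w : ℂ => 1 / conj w) (Bornology.cobounded ℂ) (𝓝 0) := by
      rw [tendsto_zero_iff_norm_tendsto_zero]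
      have h2 : (fun w : ℂ => ‖1 / conj w‖) = fun w : ℂ => ‖w‖⁻¹ := by
        funext w
        rw [norm_div, norm_one, RCLike.norm_conj, one_div]
      rw [h2]
      exact tendsto_inv_atTop_zero.comp tendsto_norm_cobounded_atTop
    have h3 : ContinuousAt F' 0 :=
      (hF'.differentiableAt (isOpen_ball.mem_nhds (mem_ball_self hδ))).continuousAt
    exact (Complex.continuous_conj.tendsto _).comp (h3.tendsto.comp h1)
  · intro w hw hwk
    obtain ⟨hw0, hwP⟩ := hR w hw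
    have h1 : 1 / conj w ∈ ball C ρ := by
      rw [← hDD]
      refine ⟨div_ne_zero one_ne_zero ((map_ne_zero _).2 hw0), ?_⟩
      rw [hinv]
      exact hwk
    have h2 := hEq ⟨hwP, h1⟩
    have h3 : Rf F' w = Rf (Rf g) w := by
      unfold Rf
      unfold Rf at h2
      rw [h2]
    rw [h3, hREFL.2.2.1 g w hw0]

end Pool.Agent.Y245.UC
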