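import Pool.Agent.Y245.UC.Stm

/-!
Project UC, bounded elements: a branch that is bounded in a disc continues across its boundary.
-/

set_option autoImplicit false

open Complex MeasureTheory Metric Set Filter Topology ComplexConjugate
open Pool.Agent.Y245.SC

namespace Pool.Agent.Y245.UC

/-- the reflection of a disc in `|w| > 1` is a disc -/
def U_DISC : Prop := ∀ (c : ℂ) (ρ : ℝ), 0 < ρ → 1 ≤ ‖c‖ - ρ →
  {v : ℂ | v ≠ 0 ∧ 1 / conj v ∈ ball c ρ} =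
    ball (((1 / (‖c‖ ^ 2 - ρ ^ 2) : ℝ) : ℂ) * c) (ρ / (‖c‖ ^ 2 - ρ ^ 2))

/-- local continuation across a boundary point of a disc in which `F` is bounded -/
def U_LOC : Prop := U_STEP → S_KAP → S_SEG → S_PAR → S_PIC →
  ∀ (φ F : ℂ → ℂ) (a ρ M : ℝ) (c p P : ℂ), 0 < a → 0 < ρ → DifferentiableOn ℂ φ (ball 0 1) →
  closedBall c ρ ⊆ ball 0 1 → DifferentiableOn ℂ F (ball c ρ) → (∀ v ∈ ball c ρ, ‖F v‖ ≤ M) →
  p ∈ ball c ρ → VG a φ 0 p F → P ∈ sphere c ρ →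
  ∃ (δ : ℝ) (F' : ℂ → ℂ), 0 < δ ∧ DifferentiableOn ℂ F' (ball P δ) ∧
    ∀ v ∈ ball P δ ∩ ball c ρ, F' v = F v

end Pool.Agent.Y245.UC
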