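import Pool.Agent.Y245.UC.Stm2

/-!
Project UC, growth: growth of exponent less than one near a boundary point of a disc improves to
boundedness.
-/

set_option autoImplicit false

open Complex MeasureTheory Metric Set Filter Topology ComplexConjugate
open Pool.Agent.Y245.SC

namespace Pool.Agent.Y245.UC

/-- growth of exponent less than one at a boundary point improves to boundedness -/
def U_BOOT : Prop := U_STEP → S_KAP → S_SEG → S_PAR →
  ∀ (φ F : ℂ → ℂ) (a ρ α C δ : ℝ) (c p P : ℂ), 0 < a → 0 < ρ → 0 ≤ α → α < 1 → 0 < δ →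
  DifferentiableOn ℂ φ (ball 0 1) → closedBall c ρ ⊆ ball 0 1 → DifferentiableOn ℂ F (ball c ρ) →
  (∀ v ∈ ball c ρ, ‖v - P‖ < δ → ‖F v‖ ≤ C * (ρ - ‖v - c‖) ^ (-α)) →
  p ∈ ball c ρ → VG a φ 0 p F → P ∈ sphere c ρ →
  ∃ (δ' M : ℝ), 0 < δ' ∧ ∀ v ∈ ball c ρ, ‖v - P‖ < δ' → ‖F v‖ ≤ M

end Pool.Agent.Y245.UC
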